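import Pool.Agent.W206.MO.Shift
import Pool.Agent.W206.CU.RedP

set_option autoImplicit false

/-! The topological zeta function and the `b`-function along the moves. -/

namespace Pool.Agent.W206.MO

open Pool.Agent.W428.MOT Pool.Agent.W375.MT Pool.Agent.W375.MG
open Pool.Agent.H628R4.TP (weylS IsBFunction IsBernsteinSatoOf)
open Pool.Agent.W206.CU

/-- `𝕃⁻¹` -/
noncomputable def Yc : MK ℂ := (((Lu ℂ)⁻¹ : (MK ℂ)ˣ) : MK ℂ)

/-- The property which is followed along the moves which start at `F₀`. -/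
def FollowG {V₀ : Type} [Fintype V₀] (M : Meas ℂ (MK ℂ)) (F₀ : MvPolynomial V₀ ℂ) (ρ : Type)
    [Fintype ρ] (m : ℕ) (F : MvPolynomial ρ ℂ) : Prop :=
  (∀ B : Polynomial ℂ, BS1 F₀ B → BS1 F (B.comp (Polynomial.X + Polynomial.C (m : ℂ)))) ∧
  (∀ N : ℕ, al M Yc F (N + 1) - Yc * al M Yc F N =
    Yc ^ (m * (N + 1)) * (al M Yc F₀ (N + 1) - Yc * al M Yc F₀ N)) ∧
  (∀ c : ℂ, F ≠ MvPolynomial.C c)

theorem followG_chain {V₀ : Type} [Fintype V₀] (M : Meas ℂ (MK ℂ)) (hL : M.L * Yc = 1)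
    (F₀ : MvPolynomial V₀ ℂ) : KR.Chain (fun ρ _ m F => FollowG M F₀ ρ m F) where
  iso ρ ρ' _ _ e m F h := by
    refine ⟨fun B hB => bs1_iso e (h.1 B hB), fun N => ?_, fun c hc => h.2.2 c ?_⟩
    · rw [al_iso, al_iso]
      exact h.2.1 N
    · have h1 := congrArg e.symm hc
      rwa [AlgEquiv.symm_apply_apply, ← MvPolynomial.algebraMap_eq, AlgEquiv.commutes,
        MvPolynomial.algebraMap_eq] at h1
  step ρ _ m F h := by
    refine ⟨fun B hB => ?_, fun N => ?_, fun c hc => ?_⟩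
    · have h1 := bs1_step (h.1 B hB)
      rw [Polynomial.comp_assoc] at h1
      have h2 : (Polynomial.X + Polynomial.C (m : ℂ)).comp (Polynomial.X + 1) =
          (Polynomial.X + Polynomial.C ((m + 1 : ℕ) : ℂ) : Polynomial ℂ) := by
        simp only [Polynomial.add_comp, Polynomial.X_comp, Polynomial.C_comp, Nat.cast_add,
          Nat.cast_one, map_add, map_one]
        ring
      rw [h2] at h1
      exact h1
    · change al M _ (nxt F) (N + 1) - _ * al M _ (nxt F) N = _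
      rw [al_step M _ hL, h.2.1 N, ← mul_assoc, ← pow_add]
      congr 2
      ring
    · have h1 := congrArg (MvPolynomial.eval (Sum.elim (fun _ => 0) (fun _ => (1 : ℂ)))) hc
      have h2 := congrArg (MvPolynomial.eval (Sum.elim (fun _ => 0) (fun _ => (0 : ℂ)))) hc
      simp only [map_add, map_mul, MvPolynomial.eval_X, Sum.elim_inr, MvPolynomial.eval_rename,
        MvPolynomial.eval_C, mul_one, mul_zero, add_zero] at h1 h2
      have h3 : (Sum.elim (fun _ => (0 : ℂ)) (fun _ => (1 : ℂ)) : ρ ⊕ Fin 2 → ℂ) ∘ Sum.inl =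
          (Sum.elim (fun _ => (0 : ℂ)) (fun _ => (0 : ℂ)) : ρ ⊕ Fin 2 → ℂ) ∘ Sum.inl := rfl
      rw [h3, h2] at h1
      simp at h1

theorem followG_start {V₀ : Type} [Fintype V₀] (M : Meas ℂ (MK ℂ)) (F₀ : MvPolynomial V₀ ℂ)
    (h : ∀ c : ℂ, F₀ ≠ MvPolynomial.C c) : FollowG M F₀ V₀ 0 F₀ := by
  refine ⟨fun B hB => ?_, fun N => ?_, h⟩
  · simpa using hB
  · rw [zero_mul, pow_zero, one_mul]

theorem rescale_C (c d : MK ℂ) :
    PowerSeries.rescale d (PowerSeries.C c) = PowerSeries.C c := by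
  ext k
  rw [PowerSeries.coeff_rescale, PowerSeries.coeff_C]
  split_ifs with h
  · rw [h, pow_zero, one_mul]
  · rw [mul_zero]

/-- The element `∑_{i < m} 𝕃 ^ (-i-1)`. -/
noncomputable def kap (m : ℕ) : MK ℂ := ∑ i ∈ Finset.range m, Yc ^ (i + 1)

theorem Lu_mul_Yc : ((Lu ℂ : (MK ℂ)ˣ) : MK ℂ) * Yc = 1 := Units.mul_inv _

theorem kap_mul (m : ℕ) : kap m * (((Lu ℂ : (MK ℂ)ˣ) : MK ℂ) - 1) = 1 - Yc ^ m := by
  induction m with
  | zero => simp [kap]
  | succ m ih =>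
    rw [kap, Finset.sum_range_succ, ← kap, add_mul, ih]
    linear_combination (Yc ^ m) * Lu_mul_Yc

theorem chi_Yc {χ : MK ℂ →+* ℤ} (hχ : χ ((Lu ℂ : (MK ℂ)ˣ) : MK ℂ) = 1) : χ Yc = 1 := by
  have h2 := congrArg χ Lu_mul_Yc
  rwa [map_mul, hχ, one_mul, map_one] at h2

theorem chi_kap {χ : MK ℂ →+* ℤ} (hχ : χ ((Lu ℂ : (MK ℂ)ˣ) : MK ℂ) = 1) (m : ℕ) :
    χ (kap m) = m := by
  rw [kap, map_sum]
  simp [chi_Yc hχ]

/-- The rational function attached to the cubic. -/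
noncomputable def topOf (m : ℕ) (R : RatFunc ℂ) : RatFunc ℂ :=
  1 - (1 - (m : RatFunc ℂ) * (RatFunc.X + (m : RatFunc ℂ))⁻¹) *
    (1 + (m : RatFunc ℂ) * (RatFunc.X + 1)⁻¹) * (1 - shift m ((RatFunc.X + 1)⁻¹ * R))

theorem isTop_lin {χ : MK ℂ →+* ℤ} (hχ : χ ((Lu ℂ : (MK ℂ)ˣ) : MK ℂ) = 1) (M : Meas ℂ (MK ℂ))
    (hL : M.L * Yc = 1) {V : Type} [Fintype V] {r : ℕ} {f : Fin r → MvPolynomial V ℂ}
    {R : RatFunc ℂ} (hR : IsTop χ (zI M Yc f) R) :
    IsTop χ (zV M Yc (lin f)) ((RatFunc.X + 1)⁻¹ * R) := by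
  have h1 := zV_lin M Yc hL f
  have h2 : fac ℂ (-1, 1) = 1 - PowerSeries.C Yc * PowerSeries.X := fac_neg_one ℂ
  have h3 := fac_mul_geo (K := ℂ) (-1, 1) one_pos
  have h4 : (1 : MK ℂ) - Yc = Yc * (((Lu ℂ : (MK ℂ)ˣ) : MK ℂ) - 1) := by
    linear_combination -Lu_mul_Yc
  have h5 : zV M Yc (lin f) = PowerSeries.C Yc *
      (PowerSeries.C (((Lu ℂ : (MK ℂ)ˣ) : MK ℂ) - 1) * geo ℂ (-1) 1) * zI M Yc f := by
    rw [← h2, h4, map_mul] at h1
    linear_combination (geo ℂ (-1) 1) * h1 - (zV M Yc (lin f)) * h3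
  rw [h5]
  have h6 := ((isTop_C (χ := χ) Yc).mul (isTop_geo (χ := χ) (-1) 1 one_pos)).mul hR
  convert h6 using 1
  rw [chi_Yc hχ]
  push_cast
  ring

theorem isTop_trans {χ : MK ℂ →+* ℤ} (hχ : χ ((Lu ℂ : (MK ℂ)ˣ) : MK ℂ) = 1)
    (M : Meas ℂ (MK ℂ)) (hL : M.L * Yc = 1) {V V' : Type} [Fintype V] [Fintype V'] {r m : ℕ}
    {f : Fin r → MvPolynomial V ℂ} {g : MvPolynomial V' ℂ} (h : FollowG M (lin f) V' m g)
    {R : RatFunc ℂ} (hR : IsTop χ (zI M Yc f) R) : IsTop χ (zV M Yc g) (topOf m R) := by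
  have h1 := ser_follow M Yc (lin f) g h.2.1
  have h2 : fac ℂ (-1, 1) = 1 - PowerSeries.C Yc * PowerSeries.X := fac_neg_one ℂ
  have h3 := fac_mul_geo (K := ℂ) (-1, 1) one_pos
  have h4 := fac_mul_geo (K := ℂ) (-(m : ℤ), 1) one_pos
  have h5 : fac ℂ (-(m : ℤ), 1) = 1 - PowerSeries.C (Yc ^ m) * PowerSeries.X := by
    rw [fac]
    simp only [zpow_neg, zpow_natCast, Int.toNat_one, pow_one]
    rw [← inv_pow, Units.val_pow_eq_pow_val]
    rfl
  have h6 := zV_eq M Yc g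
  have h7 := zV_eq M Yc (lin f)
  -- the rescaled equations
  have h8 := congrArg (PowerSeries.rescale (Yc ^ m)) h7
  rw [map_mul, map_sub, map_sub, map_one, PowerSeries.rescale_X] at h8
  rw [map_mul, map_sub, map_one, map_mul, rescale_C, PowerSeries.rescale_X] at h1
  have h9 : PowerSeries.X * zV M Yc g = 1 -
      (1 - PowerSeries.X * (PowerSeries.C (kap m) *
        (PowerSeries.C (((Lu ℂ : (MK ℂ)ˣ) : MK ℂ) - 1) * geo ℂ (-(m : ℤ)) 1))) *
      (1 + PowerSeries.X * (PowerSeries.C Yc * PowerSeries.C (kap m) *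
        (PowerSeries.C (((Lu ℂ : (MK ℂ)ˣ) : MK ℂ) - 1) * geo ℂ (-1) 1))) *
      (1 - PowerSeries.rescale (Yc ^ m) (PowerSeries.X * zV M Yc (lin f))) := by
    have e1 : 1 - PowerSeries.X * (PowerSeries.C (kap m) *
        (PowerSeries.C (((Lu ℂ : (MK ℂ)ˣ) : MK ℂ) - 1) * geo ℂ (-(m : ℤ)) 1)) =
        (1 - PowerSeries.X) * geo ℂ (-(m : ℤ)) 1 := by
      have e2 := congrArg (PowerSeries.C (R := MK ℂ)) (kap_mul m)
      rw [map_mul, map_sub (PowerSeries.C (R := MK ℂ)) 1 (Yc ^ m), map_one] at e2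
      rw [h5] at h4
      linear_combination (-PowerSeries.X * geo ℂ (-(m : ℤ)) 1) * e2 - h4
    have e3 : 1 + PowerSeries.X * (PowerSeries.C Yc * PowerSeries.C (kap m) *
        (PowerSeries.C (((Lu ℂ : (MK ℂ)ˣ) : MK ℂ) - 1) * geo ℂ (-1) 1)) =
        (1 - PowerSeries.C Yc * (PowerSeries.C (Yc ^ m) * PowerSeries.X)) * geo ℂ (-1) 1 := by
      have e2 := congrArg (PowerSeries.C (R := MK ℂ)) (kap_mul m)
      rw [map_mul, map_sub (PowerSeries.C (R := MK ℂ)) 1 (Yc ^ m), map_one] at e2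
      rw [h2] at h3
      linear_combination (PowerSeries.X * PowerSeries.C Yc * geo ℂ (-1) 1) * e2 - h3
    rw [e1, e3, ← h8]
    rw [h5] at h4
    rw [h2] at h3
    simp only at h3 h4
    linear_combination h6 + (1 - PowerSeries.X) * (geo ℂ (-1) 1 *
      (1 - PowerSeries.C Yc * (PowerSeries.C (Yc ^ m) * PowerSeries.X)) *
      (PowerSeries.rescale (Yc ^ m)) (ser M Yc (lin f)) * h4 - geo ℂ (-1) 1 * h1 +
      ser M Yc g * h3)
  apply IsTop.of_X_mul hχ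
  rw [h9]
  have g1 := isTop_geo (χ := χ) (-(m : ℤ)) 1 one_pos
  have g2 := isTop_geo (χ := χ) (-1) 1 one_pos
  have k1 := isTop_C (χ := χ) (kap m)
  have k2 := isTop_C (χ := χ) Yc
  have x1 := isTop_X (χ := χ)
  have o1 := isTop_one (χ := χ)
  have r1 := IsTop.rescale hχ (m := m) (x1.mul (isTop_lin hχ M hL hR))
  have k3 := o1.sub (((o1.sub (x1.mul (k1.mul g1))).mul
    (o1.add (x1.mul ((k2.mul k1).mul g2)))).mul (o1.sub r1))
  have e4 : topOf m R = 1 - (1 - 1 * (((χ (kap m) : ℤ) : RatFunc ℂ) *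
      (((1 : ℤ) : RatFunc ℂ) * RatFunc.X - ((-(m : ℤ) : ℤ) : RatFunc ℂ))⁻¹)) *
      (1 + 1 * ((((χ Yc : ℤ) : RatFunc ℂ) * ((χ (kap m) : ℤ) : RatFunc ℂ)) *
        (((1 : ℤ) : RatFunc ℂ) * RatFunc.X - ((-1 : ℤ) : RatFunc ℂ))⁻¹)) *
      (1 - shift m (1 * ((RatFunc.X + 1)⁻¹ * R))) := by
    rw [topOf, chi_kap hχ, chi_Yc hχ]
    push_cast
    simp only [one_mul, sub_neg_eq_add]
  rw [e4]
  exact k3

theorem topOf_eq (m : ℕ) (R : RatFunc ℂ) :
    algebraMap (Polynomial ℂ) (RatFunc ℂ) ((Polynomial.X + Polynomial.C (m : ℂ)) *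
      (Polynomial.X + 1)) * (1 - topOf m R) =
    algebraMap (Polynomial ℂ) (RatFunc ℂ) Polynomial.X *
      (algebraMap (Polynomial ℂ) (RatFunc ℂ) (Polynomial.X + 1 + Polynomial.C (m : ℂ)) -
        shift m R) := by
  have hCm : RatFunc.C (m : ℂ) = (m : RatFunc ℂ) := map_natCast _ _
  have a1 : algebraMap (Polynomial ℂ) (RatFunc ℂ) (Polynomial.X + Polynomial.C (m : ℂ)) =
      RatFunc.X + (m : RatFunc ℂ) := by
    rw [map_add, RatFunc.algebraMap_X, RatFunc.algebraMap_C, hCm]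
  have a2 : algebraMap (Polynomial ℂ) (RatFunc ℂ) (Polynomial.X + 1) = RatFunc.X + 1 := by
    rw [map_add, RatFunc.algebraMap_X, map_one]
  have a3 : algebraMap (Polynomial ℂ) (RatFunc ℂ) (Polynomial.X + 1 + Polynomial.C (m : ℂ)) =
      RatFunc.X + 1 + (m : RatFunc ℂ) := by
    rw [map_add, a2, RatFunc.algebraMap_C, hCm]
  have n1 : RatFunc.X + (m : RatFunc ℂ) ≠ 0 := by
    rw [← a1]
    exact RatFunc.algebraMap_ne_zero (Polynomial.monic_X_add_C _).ne_zero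
  have n2 : (RatFunc.X + 1 : RatFunc ℂ) ≠ 0 := by
    rw [← a2]
    exact RatFunc.algebraMap_ne_zero (Polynomial.monic_X_add_C (1 : ℂ)).ne_zero
  have n3 : RatFunc.X + 1 + (m : RatFunc ℂ) ≠ 0 := by
    have e : (Polynomial.X + 1 + Polynomial.C (m : ℂ) : Polynomial ℂ) =
        Polynomial.X + Polynomial.C ((m : ℂ) + 1) := by
      rw [map_add, map_one]
      ring
    rw [← a3, e]
    exact RatFunc.algebraMap_ne_zero (Polynomial.monic_X_add_C _).ne_zero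
  have h1 : shift m ((RatFunc.X + 1)⁻¹ * R) =
      (RatFunc.X + 1 + (m : RatFunc ℂ))⁻¹ * shift m R := by
    rw [map_mul, map_inv₀, map_add, map_one, shift_X, hCm]
    congr 2
    ring
  rw [topOf, h1, map_mul, a1, a2, a3, RatFunc.algebraMap_X]
  have e1 : (RatFunc.X + (m : RatFunc ℂ)) * (1 - (m : RatFunc ℂ) *
      (RatFunc.X + (m : RatFunc ℂ))⁻¹) = RatFunc.X := by
    field_simp
    ring
  have e2 : (RatFunc.X + 1 : RatFunc ℂ) * (1 + (m : RatFunc ℂ) * (RatFunc.X + 1)⁻¹) =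
      RatFunc.X + 1 + (m : RatFunc ℂ) := by
    field_simp
  have e3 : (RatFunc.X + 1 + (m : RatFunc ℂ)) * (1 - (RatFunc.X + 1 + (m : RatFunc ℂ))⁻¹ *
      shift m R) = RatFunc.X + 1 + (m : RatFunc ℂ) - shift m R := by
    rw [mul_sub, mul_one, mul_inv_cancel_left₀ n3]
  calc _ = ((RatFunc.X + (m : RatFunc ℂ)) * (1 - (m : RatFunc ℂ) *
        (RatFunc.X + (m : RatFunc ℂ))⁻¹)) *
        (((RatFunc.X + 1 : RatFunc ℂ) * (1 + (m : RatFunc ℂ) * (RatFunc.X + 1)⁻¹)) *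
        (1 - (RatFunc.X + 1 + (m : RatFunc ℂ))⁻¹ * shift m R)) := by ring
    _ = _ := by rw [e1, e2, e3]

theorem regAt_of_topOf {m : ℕ} {R : RatFunc ℂ} {s₀ : ℂ} (hs : s₀ ≠ m)
    (h : RegAt (topOf m R) (s₀ - m)) : RegAt R s₀ := by
  have h1 : RegAt (1 - topOf m R) (s₀ - m) := by
    have h2 := regAt_poly 1 (s₀ - m)
    rw [map_one] at h2
    exact h2.sub h
  have h3 := (regAt_poly ((Polynomial.X + Polynomial.C (m : ℂ)) *
      (Polynomial.X + 1)) (s₀ - m)).mul h1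
  rw [topOf_eq] at h3
  have h4 := RegAt.of_mul_poly (A := Polynomial.X) (by
    rw [Polynomial.eval_X]
    exact sub_ne_zero.2 hs) h3
  have h5 := (regAt_poly (Polynomial.X + 1 + Polynomial.C (m : ℂ)) (s₀ - m)).sub h4
  rw [sub_sub_cancel] at h5
  have h6 := h5.of_shift
  rwa [sub_add_cancel] at h6

/-! ### The zeta function of a polynomial -/

theorem zetaOrd_eq_zV (M : Meas ℂ (MK ℂ)) (hL : M.L * Yc = 1)
    (hM : ∀ (ι : Type) [Fintype ι] (S : Set (Pt ℂ ι)),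
      M.χ ι S = algebraMap (K0 ℂ) (MK ℂ) (cls ι S)) {n : ℕ} (f : MvPolynomial (Fin n) ℂ) :
    zetaOrd f Set.univ = zV M Yc f := by
  have h1 := zeta_eq M hL hM f
  have h2 := zV_eq M Yc f
  apply X_cancel
  change (1 - PowerSeries.X) * ser M Yc f = _ at h1
  linear_combination h1 - h2

theorem zI_single (M : Meas ℂ (MK ℂ)) {V : Type} [Fintype V] (f : MvPolynomial V ℂ) :
    zI M Yc (fun _ : Fin 1 => f) = zV M Yc f := by
  have h1 : ∀ N, vanI (fun _ : Fin 1 => f) N N = van f N N := by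
    intro N
    ext z
    simp [vanI, van]
  have h2 : ∀ N, alI M Yc (fun _ : Fin 1 => f) N = al M Yc f N := by
    intro N
    rw [alI, al, clI, cl, h1]
  unfold zI zV
  simp only [h2]

theorem bs1_lin_single {V : Type} [Finite V] {f : MvPolynomial V ℂ} {b : Polynomial ℂ}
    (h : IsBFunction f b) : BS1 (lin (fun _ : Fin 1 => f)) b := by
  let e : V ⊕ Unit ≃ V ⊕ Fin 1 := Equiv.sumCongr (Equiv.refl V) (Equiv.ofUnique Unit (Fin 1))
  have h1 := bs1_iso (MvPolynomial.renameEquiv ℂ e) (bs1_start h)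
  have h2 : MvPolynomial.renameEquiv ℂ e (MvPolynomial.X (Sum.inr ()) *
      MvPolynomial.rename Sum.inl f) = lin (fun _ : Fin 1 => f) := by
    rw [MvPolynomial.renameEquiv_apply, map_mul, MvPolynomial.rename_X,
      MvPolynomial.rename_rename, lin, Fin.sum_univ_one]
    rfl
  rwa [h2] at h1

end Pool.Agent.W206.MO
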