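import Pool.Agent.W206.MO.Trans

set_option autoImplicit false

/-! The reduction for topological zeta functions. -/

namespace Pool.Agent.W206.MO

open Pool.Agent.W428.MOT Pool.Agent.W375.MT Pool.Agent.W375.MG
open Pool.Agent.H628R4.TP (weylS IsBFunction IsBernsteinSatoOf)
open Pool.Agent.W206.CU

/-- The cubic polynomial `∑_j t_j q_j(x)` in the `n + k` variables `x_1, …, x_n, t_1, …, t_k`. -/
noncomputable def cubic {n k : ℕ} (q : Fin k → MvPolynomial (Fin n) ℂ) :
    MvPolynomial (Fin (n + k)) ℂ :=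
  ∑ j, MvPolynomial.X (Fin.natAdd n j) * MvPolynomial.rename (Fin.castAdd k) (q j)

theorem rename_quadSum {n k : ℕ} (q : Fin k → MvPolynomial (Fin n) ℂ) :
    MvPolynomial.renameEquiv ℂ finSumFinEquiv (KP.quadSum q) = cubic q := by
  rw [MvPolynomial.renameEquiv_apply, KP.quadSum, cubic, map_sum]
  refine Finset.sum_congr rfl fun j _ => ?_
  rw [map_mul, MvPolynomial.rename_X, MvPolynomial.rename_rename]
  rfl

theorem quadSum_eq_lin {n k : ℕ} (q : Fin k → MvPolynomial (Fin n) ℂ) :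
    KP.quadSum q = lin q := rfl

theorem lin_ne_C {V : Type} {r : ℕ} {f : Fin r → MvPolynomial V ℂ} {j : Fin r} (hj : f j ≠ 0)
    (c : ℂ) : lin f ≠ MvPolynomial.C c := by
  intro h
  -- differentiate with respect to `t_j`
  have h1 := congrArg (MvPolynomial.pderiv (Sum.inr j)) h
  rw [MvPolynomial.pderiv_C, lin, map_sum, Finset.sum_eq_single j] at h1
  · rw [Derivation.leibniz, MvPolynomial.pderiv_X_self, smul_eq_mul, smul_eq_mul, mul_one,
      pderiv_rename_of_not Sum.inl (Sum.inr j) (by simp), mul_zero, zero_add] at h1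
    exact hj ((MvPolynomial.rename_injective _ Sum.inl_injective) (by rw [h1, map_zero]))
  · intro i _ hi
    rw [Derivation.leibniz, pderiv_rename_of_not Sum.inl (Sum.inr j) (by simp),
      MvPolynomial.pderiv_X_of_ne (by simpa using hi)]
    simp
  · simp

/-- The data attached to `f`: for a pole `s₀` of the topological zeta function of `f`, a cubic `g`
and a natural number `m` such that `s₀ - m` is a pole of the topological zeta function of `g`, and
`b_g(s)` divides `(s + 1) b_f(s + m)`. -/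
theorem exists_cubic {χ : MK ℂ →+* ℤ} (hχ : χ ((Lu ℂ : (MK ℂ)ˣ) : MK ℂ) = 1) {n : ℕ}
    (f : MvPolynomial (Fin n) ℂ) (hf : f ≠ 0) {R : RatFunc ℂ}
    (hR : IsTop χ (zetaOrd f Set.univ) R) {s₀ : ℂ} (hs : R.denom.eval s₀ = 0) {b : Polynomial ℂ}
    (hb : IsBernsteinSatoOf f b) :
    ∃ (n' k m : ℕ) (q : Fin k → MvPolynomial (Fin n') ℂ) (R' : RatFunc ℂ) (b' : Polynomial ℂ),
      (∀ j, (q j).totalDegree ≤ 2) ∧ (∀ c : ℂ, cubic q ≠ MvPolynomial.C c) ∧ s₀ ≠ (m : ℂ) - 1 ∧
      IsTop χ (zetaOrd (cubic q) Set.univ) R' ∧ R'.denom.eval (s₀ - m) = 0 ∧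
      IsBernsteinSatoOf (cubic q) b' ∧
      b' ∣ (Polynomial.X + 1) * b.comp (Polynomial.X + Polynomial.C (m : ℂ)) := by
  obtain ⟨M, hL, hM⟩ := exists_meas ℂ
  change M.L * Yc = 1 at hL
  obtain ⟨N, hN⟩ := exists_nat_gt (s₀.re + 1)
  obtain ⟨n', k, m, q, hNm, hq, hfol⟩ := KP.main
    (followG_chain M hL (KP.quadSum fun _ : Fin 1 => f)) (fun _ : Fin 1 => f)
    (followG_start M _ (fun c => by
      rw [quadSum_eq_lin]
      exact lin_ne_C (j := 0) hf c)) N
  have hmN : (N : ℝ) ≤ m := by exact_mod_cast hNm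
  have hfol' := (followG_chain M hL _).iso _ _ (MvPolynomial.renameEquiv ℂ finSumFinEquiv) _ _ hfol
  rw [rename_quadSum, quadSum_eq_lin] at hfol'
  have hb1 := isBFunction_of_bs1 (hfol'.1 b (bs1_lin_single hb.2.1))
  have h5 : (Polynomial.X + 1) * b.comp (Polynomial.X + Polynomial.C (m : ℂ)) ≠ 0 :=
    mul_ne_zero (Polynomial.monic_X_add_C (1 : ℂ)).ne_zero (comp_ne_zero hb.1.ne_zero m)
  obtain ⟨b', hb'⟩ := exists_isBernsteinSatoOf hb1 h5
  have hR1 : IsTop χ (zI M Yc fun _ : Fin 1 => f) R := by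
    rw [zI_single, ← zetaOrd_eq_zV M hL hM]
    exact hR
  have hR2 := isTop_trans hχ M hL hfol' hR1
  rw [← zetaOrd_eq_zV M hL hM] at hR2
  have hsm : s₀ ≠ m := by
    intro h
    rw [h] at hN
    rw [Complex.natCast_re] at hN
    linarith
  have hsm' : s₀ ≠ (m : ℂ) - 1 := by
    intro h
    rw [h] at hN
    rw [Complex.sub_re, Complex.natCast_re, Complex.one_re] at hN
    linarith
  refine ⟨n', k, m, q, topOf m R, b', hq, hfol'.2.2, hsm', hR2, ?_, hb',
    isBernsteinSatoOf_dvd hb' hb1⟩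
  by_contra hne
  exact (regAt_iff R s₀).1 (regAt_of_topOf hsm ((regAt_iff _ _).2 hne)) hs

end Pool.Agent.W206.MO
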