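import Pool.Agent.W206.MO.Step

set_option autoImplicit false

/-! The generating series of the classes of jets, and the zeta function. -/

namespace Pool.Agent.W206.MO

open MvPolynomial
open Pool.Agent.W428.MOT Pool.Agent.W375.MT Pool.Agent.W375.MG

variable {K : Type} [Field K] {V : Type}

section

variable [Fintype V] {R : Type} [CommRing R] (M : Meas K R) (Y : R)

/-- The volume of the set of the arcs `φ` with `ord F(φ) ≥ N`. -/
noncomputable def al (F : MvPolynomial V K) (N : ℕ) : R :=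
  cl M F N * Y ^ (Fintype.card V * N)

theorem al_iso {V' : Type} [Fintype V'] (e : MvPolynomial V K ≃ₐ[K] MvPolynomial V' K)
    (F : MvPolynomial V K) (N : ℕ) : al M Y (e F) N = al M Y F N := by
  rw [al, al, cl_iso, card_eq_of_iso e]

theorem al_zero (F : MvPolynomial V K) : al M Y F 0 = 1 := by
  rw [al, mul_zero, pow_zero, mul_one, cl]
  have h : van F 0 0 = Set.univ := by
    ext z
    simp [van]
  rw [h]
  exact M.point

theorem al_step (hY : M.L * Y = 1) (F : MvPolynomial V K) (N : ℕ) :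
    al M Y (nxt F) (N + 1) - Y * al M Y (nxt F) N =
      Y ^ (N + 1) * (al M Y F (N + 1) - Y * al M Y F N) := by
  have h := cl_step M F N
  have hc : Fintype.card (V ⊕ Fin 2) = Fintype.card V + 2 := by simp
  unfold al
  rw [hc]
  generalize Fintype.card V = v at *
  have e1 : ∀ k j : ℕ, M.L ^ k * Y ^ (k + j) = Y ^ j := fun k j => by
    rw [pow_add, ← mul_assoc, ← mul_pow, hY, one_pow, one_mul]
  have h2 := congrArg (fun x => x * Y ^ ((v + 2) * (N + 1) + 1)) h
  beta_reduce at h2
  have e2 : M.L ^ (v + 2) * Y ^ ((v + 2) * (N + 1) + 1) = Y ^ ((v + 2) * N) * Y := by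
    rw [show (v + 2) * (N + 1) + 1 = (v + 2) + ((v + 2) * N + 1) by ring, e1, pow_succ]
  have e3 : M.L ^ v * M.L ^ (N + 1) * Y ^ ((v + 2) * (N + 1) + 1) =
      Y ^ (N + 1) * Y * Y ^ (v * N) := by
    rw [← pow_add, show (v + 2) * (N + 1) + 1 = (v + (N + 1)) + ((N + 1) + 1 + v * N) by ring,
      e1, pow_add, pow_add Y (N + 1) 1, pow_one]
  have e4 : M.L * Y ^ ((v + 2) * (N + 1) + 1) = Y ^ ((v + 2) * (N + 1)) := by
    have := e1 1 ((v + 2) * (N + 1))
    rwa [pow_one, add_comm] at this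
  have e5 : M.L ^ (N + 1) * (M.L * Y ^ ((v + 2) * (N + 1) + 1)) =
      Y ^ (N + 1) * Y ^ (v * (N + 1)) := by
    rw [e4, show (v + 2) * (N + 1) = (N + 1) + ((N + 1) + v * (N + 1)) by ring, e1, pow_add]
  linear_combination -h2 + (cl M (nxt F) N) * e2 - (cl M F N) * e3 -
    (cl M (nxt F) (N + 1)) * e4 + (cl M F (N + 1)) * e5

/-- The generating series of the volumes. -/
noncomputable def ser (F : MvPolynomial V K) : PowerSeries R := PowerSeries.mk (al M Y F)

theorem coeff_ser_zero (F : MvPolynomial V K) :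
    PowerSeries.coeff 0 ((1 - PowerSeries.C Y * PowerSeries.X) * ser M Y F) = 1 := by
  simp [ser, al_zero, sub_mul, mul_assoc]

theorem coeff_ser_succ (F : MvPolynomial V K) (N : ℕ) :
    PowerSeries.coeff (N + 1) ((1 - PowerSeries.C Y * PowerSeries.X) * ser M Y F) =
      al M Y F (N + 1) - Y * al M Y F N := by
  rw [sub_mul, one_mul, mul_assoc, map_sub, PowerSeries.coeff_C_mul, PowerSeries.coeff_succ_X_mul]
  simp only [ser, PowerSeries.coeff_mk]

theorem ser_follow {V' : Type} [Fintype V'] {m : ℕ} (f : MvPolynomial V K) (F : MvPolynomial V' K)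
    (h : ∀ N, al M Y F (N + 1) - Y * al M Y F N =
      Y ^ (m * (N + 1)) * (al M Y f (N + 1) - Y * al M Y f N)) :
    (1 - PowerSeries.C Y * PowerSeries.X) * ser M Y F =
      PowerSeries.rescale (Y ^ m) ((1 - PowerSeries.C Y * PowerSeries.X) * ser M Y f) := by
  ext N
  rw [PowerSeries.coeff_rescale]
  rcases N with _ | N
  · rw [coeff_ser_zero, coeff_ser_zero]
    simp
  · rw [coeff_ser_succ, coeff_ser_succ, h, pow_mul]

end

/-- The class of the affine line and its inverse. -/
theorem exists_meas (K : Type) [Field K] [CharZero K] : ∃ M : Meas K (MK K),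
    M.L * (((Lu K)⁻¹ : (MK K)ˣ) : MK K) = 1 ∧ ∀ (ι : Type) [Fintype ι] (S : Set (Pt K ι)),
      M.χ ι S = algebraMap (K0 K) (MK K) (cls ι S) := by
  obtain ⟨M, hM⟩ := Pool.Agent.W417.MT.K0.main K
  exact ⟨Pool.Agent.W63.MTFin.mapMeas M (algebraMap (K0 K) (MK K)),
    Pool.Agent.W63.MTFin.L_mul hM, fun ι _ S =>
      congrArg (algebraMap (K0 K) (MK K)) (hM ι S)⟩

theorem van_succ {n : ℕ} (f : MvPolynomial (Fin n) K) (l : ℕ) :
    van f l (l + 1) = van f (l + 1) (l + 1) ∪ JetOrd f Set.univ l := by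
  ext z
  simp only [van, JetOrd, Set.mem_union, Set.mem_ofPred_eq, Set.mem_univ, true_and]
  constructor
  · intro h
    by_cases hl : PowerSeries.coeff l (aeval (ar z) f) = 0
    · left
      intro j hj
      rcases Nat.lt_succ_iff_lt_or_eq.1 hj with h1 | rfl
      · exact h j h1
      · exact hl
    · exact Or.inr ⟨h, hl⟩
  · rintro (h | h)
    · exact fun j hj => h j (by omega)
    · exact h.1

theorem constr_jetOrd {n : ℕ} (f : MvPolynomial (Fin n) K) (l : ℕ) :
    Constr (JetOrd f Set.univ l) :=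
  constr_JetG f Constr.univ good_units l

theorem zeta_eq [CharZero K] (M : Meas K (MK K))
    (hL : M.L * (((Lu K)⁻¹ : (MK K)ˣ) : MK K) = 1)
    (hM : ∀ (ι : Type) [Fintype ι] (S : Set (Pt K ι)),
      M.χ ι S = algebraMap (K0 K) (MK K) (cls ι S)) {n : ℕ} (f : MvPolynomial (Fin n) K) :
    (1 - PowerSeries.X) * ser M (((Lu K)⁻¹ : (MK K)ˣ) : MK K) f =
      1 - PowerSeries.X * zetaOrd f Set.univ := by
  set Y : MK K := (((Lu K)⁻¹ : (MK K)ˣ) : MK K) with hYdef
  have hpow : ∀ k : ℕ, (((Lu K) ^ (-(k : ℤ)) : (MK K)ˣ) : MK K) = Y ^ k := by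
    intro k
    rw [zpow_neg, zpow_natCast, ← inv_pow, Units.val_pow_eq_pow_val]
  have hz : ∀ l, PowerSeries.coeff l (zetaOrd f Set.univ) = al M Y f l - al M Y f (l + 1) := by
    intro l
    have h1 := M.add _ _ (constr_van f (l + 1) (l + 1)) (constr_jetOrd f l) (by
      rw [Set.disjoint_left]
      intro z hz hz'
      exact hz'.2.2 (hz l (by omega)))
    rw [← van_succ, chi_level, hM _ (JetOrd f Set.univ l)] at h1
    rw [zetaOrd, PowerSeries.coeff_C_mul, PowerSeries.coeff_mk, hpow, hpow, al, al,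
      Fintype.card_fin]
    rw [Fintype.card_fin] at h1
    have h2 : algebraMap (K0 K) (MK K) (cls (Fin n × Fin (l + 1)) (JetOrd f Set.univ l)) =
        cl M f l * M.L ^ n - cl M f (l + 1) := by
      rw [h1, cl]
      ring
    rw [h2]
    have h3 : M.L ^ n * Y ^ n = 1 := by rw [← mul_pow, hL, one_pow]
    have h4 : n * (l + 1) = n + n * l := by ring
    rw [h4, pow_add]
    linear_combination (cl M f l * Y ^ (n * l)) * h3
  ext N
  rcases N with _ | N
  · simp [ser, al_zero, sub_mul]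
  · rw [sub_mul, one_mul, map_sub, map_sub, PowerSeries.coeff_succ_X_mul,
      PowerSeries.coeff_succ_X_mul, hz, PowerSeries.coeff_one, if_neg (by omega)]
    simp only [ser, PowerSeries.coeff_mk]
    ring

end Pool.Agent.W206.MO
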