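import Pool.Agent.W375.MG.Out

set_option autoImplicit false

/-! Classes of jets on which a polynomial vanishes to a given order. -/

namespace Pool.Agent.W206.MO

open MvPolynomial
open Pool.Agent.W428.MOT

variable {K : Type} [Field K]

/-- The arc with the coefficients `z (i, 0), …, z (i, N - 1)`. -/
noncomputable def ar {V : Type} {N : ℕ} (z : Pt K (V × Fin N)) (i : V) :
    PowerSeries (AlgebraicClosure K) :=
  PowerSeries.mk fun j => if h : j < N then z (i, ⟨j, h⟩) else 0

theorem coeff_ar {V : Type} {N : ℕ} (z : Pt K (V × Fin N)) (i : V) (j : ℕ) (h : j < N) :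
    PowerSeries.coeff j (ar z i) = z (i, ⟨j, h⟩) := by
  rw [ar, PowerSeries.coeff_mk, dif_pos h]

theorem coeff_ar' {V : Type} {N : ℕ} (z : Pt K (V × Fin N)) (i : V) (j : ℕ) (h : ¬ j < N) :
    PowerSeries.coeff j (ar z i) = 0 := by
  rw [ar, PowerSeries.coeff_mk, dif_neg h]

theorem isPA_ar {V : Type} {N : ℕ} (i : V) : IsPA (fun z : Pt K (V × Fin N) => ar z i) := by
  intro j
  simp only [ar, PowerSeries.coeff_mk]
  split_ifs with h
  · exact IsPF.coord _
  · exact IsPF.zero

theorem isPA_aeval {V ι : Type} (γ : V → Pt K ι → PowerSeries (AlgebraicClosure K))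
    (h : ∀ i, IsPA (γ i)) (f : MvPolynomial V K) :
    IsPA (fun z => MvPolynomial.aeval (fun i => γ i z) f) := by
  induction f using MvPolynomial.induction_on with
  | C a =>
    simp only [MvPolynomial.algHom_C, PowerSeries.algebraMap_apply]
    exact IsPA.C (IsPF.const a)
  | add p q hp hq =>
    simp only [map_add]
    exact hp.add hq
  | mul_X p i hp =>
    simp only [map_mul, MvPolynomial.aeval_X]
    exact hp.mul (h i)

theorem coeff_aeval_congr {V : Type} (f : MvPolynomial V K) (q : ℕ)
    (γ δ : V → PowerSeries (AlgebraicClosure K))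
    (h : ∀ i, ∀ k < q, PowerSeries.coeff k (γ i) = PowerSeries.coeff k (δ i)) :
    ∀ k < q, PowerSeries.coeff k (aeval γ f) = PowerSeries.coeff k (aeval δ f) := by
  induction f using MvPolynomial.induction_on with
  | C a =>
    intro k _
    simp only [MvPolynomial.algHom_C]
  | add p q hp hq =>
    intro k hk
    simp only [map_add, hp k hk, hq k hk]
  | mul_X p i hp =>
    intro k hk
    simp only [map_mul, MvPolynomial.aeval_X, PowerSeries.coeff_mul]
    refine Finset.sum_congr rfl fun ab hab => ?_
    have := Finset.HasAntidiagonal.mem_antidiagonal.1 hab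
    rw [hp ab.1 (by omega), h i ab.2 (by omega)]

/-- The jets `z` (with `N` coefficients) such that `F(z) = 0 mod t ^ k`. -/
def van {V : Type} (F : MvPolynomial V K) (k N : ℕ) : Set (Pt K (V × Fin N)) :=
  {z | ∀ j < k, PowerSeries.coeff j (aeval (ar z) F) = 0}

theorem constr_van {V : Type} (F : MvPolynomial V K) (k N : ℕ) : Constr (van F k N) :=
  Constr.allLt _ fun j _ => Constr.eqz (isPA_aeval (fun i z => ar z i) (fun i => isPA_ar i) F j)

variable {R : Type} [CommRing R] (M : Meas K R)

/-- The class of the jets on which `F` vanishes. -/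
noncomputable def cl {V : Type} [Fintype V] (F : MvPolynomial V K) (N : ℕ) : R :=
  M.χ (V × Fin N) (van F N N)

/-! ### Isomorphisms -/

/-- The action of an isomorphism on jets. -/
noncomputable def act {V V' : Type} {N : ℕ} (v : V' → MvPolynomial V K) (z : Pt K (V × Fin N)) :
    Pt K (V' × Fin N) :=
  fun p => PowerSeries.coeff (p.2 : ℕ) (aeval (ar z) (v p.1))

theorem isPF_act {V V' : Type} {N : ℕ} (v : V' → MvPolynomial V K) (p : V' × Fin N) :
    IsPF (fun z : Pt K (V × Fin N) => act v z p) :=
  isPA_aeval (fun i z => ar z i) (fun i => isPA_ar i) (v p.1) p.2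

theorem coeff_ar_act {V V' : Type} {N : ℕ} (v : V' → MvPolynomial V K) (z : Pt K (V × Fin N))
    (G : MvPolynomial V' K) (j : ℕ) (hj : j < N) :
    PowerSeries.coeff j (aeval (ar (act v z)) G) = PowerSeries.coeff j (aeval (ar z) (aeval v G)) := by
  have h1 : aeval (ar z) (aeval v G) = aeval (fun i => aeval (ar z) (v i)) G := by
    rw [← AlgHom.comp_apply, comp_aeval]
  rw [h1]
  refine coeff_aeval_congr G N _ _ (fun i k hk => ?_) j hj
  rw [coeff_ar _ _ _ hk]
  rfl

theorem act_act {V V' : Type} {N : ℕ} (v : V' → MvPolynomial V K) (w : V → MvPolynomial V' K)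
    (h : ∀ i, aeval v (w i) = X i) (z : Pt K (V × Fin N)) : act w (act v z) = z := by
  funext p
  obtain ⟨i, j⟩ := p
  change PowerSeries.coeff (j : ℕ) (aeval (ar (act v z)) (w i)) = z (i, j)
  rw [coeff_ar_act _ _ _ _ j.2, h, aeval_X, coeff_ar _ _ _ j.2]

theorem aeval_symm {V V' : Type} (e : MvPolynomial V K ≃ₐ[K] MvPolynomial V' K)
    (G : MvPolynomial V' K) : aeval (fun i => e.symm (X i)) G = e.symm G := by
  have h1 : (aeval fun i => e.symm (X i) : MvPolynomial V' K →ₐ[K] MvPolynomial V K) =
      e.symm.toAlgHom := by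
    apply MvPolynomial.algHom_ext
    intro i
    simp
  rw [h1]
  rfl

theorem aeval_equiv {V V' : Type} (e : MvPolynomial V K ≃ₐ[K] MvPolynomial V' K)
    (G : MvPolynomial V K) : aeval (fun i => e (X i)) G = e G := aeval_symm e.symm G

theorem cl_iso {V V' : Type} [Fintype V] [Fintype V']
    (e : MvPolynomial V K ≃ₐ[K] MvPolynomial V' K) (F : MvPolynomial V K) (N : ℕ) :
    cl M (e F) N = cl M F N := by
  symm
  refine M.iso _ _ (constr_van _ _ _) (constr_van _ _ _) (act fun i => e.symm (X i))
    (act fun i => e (X i)) (regularOn_poly (fun p => isPF_act _ p) _)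
    (regularOn_poly (fun p => isPF_act _ p) _) ?_ ?_ ?_ ?_
  · intro z hz j hj
    rw [coeff_ar_act _ _ _ _ hj, aeval_symm, AlgEquiv.symm_apply_apply]
    exact hz j hj
  · intro z hz j hj
    rw [coeff_ar_act _ _ _ _ hj, aeval_equiv]
    exact hz j hj
  · intro z _
    exact act_act _ _ (fun i => by rw [aeval_symm, AlgEquiv.symm_apply_apply]) z
  · intro z _
    exact act_act _ _ (fun i => by rw [aeval_equiv, AlgEquiv.apply_symm_apply]) z

theorem card_eq_of_iso {V V' : Type} [Fintype V] [Fintype V']
    (e : MvPolynomial V K ≃ₐ[K] MvPolynomial V' K) : Fintype.card V = Fintype.card V' := by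
  have h := e.trdeg_eq
  rw [MvPolynomial.trdeg_of_isDomain, MvPolynomial.trdeg_of_isDomain] at h
  simpa using h

/-! ### Free coordinates -/

theorem free_coords {ι : Type} [Fintype ι] [DecidableEq ι] (S : Set (Pt K ι)) (F1 : Finset ι)
    (hS : Constr S) (h : ∀ z w : Pt K ι, (∀ i, i ∉ F1 → w i = z i) → z ∈ S → w ∈ S) :
    M.χ ι S = M.χ ι (S ∩ {z | ∀ i ∈ F1, z i = 0}) * M.L ^ F1.card := by
  have h1 := Pool.Agent.W417.MT.Free.main M S ∅ F1 (fun _ => (0 : K))
    (Finset.disjoint_empty_left _) hS (fun z w hzw => h z w fun i hi => hzw i (by simp) hi)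
  simpa using h1

theorem ar_congr {V : Type} {N : ℕ} (z w : Pt K (V × Fin N)) (k : ℕ)
    (h : ∀ (i : V) (j : Fin N), (j : ℕ) < k → w (i, j) = z (i, j)) (i : V) (j : ℕ) (hj : j < k) :
    PowerSeries.coeff j (ar w i) = PowerSeries.coeff j (ar z i) := by
  by_cases hN : j < N
  · rw [coeff_ar _ _ _ hN, coeff_ar _ _ _ hN]
    exact h _ _ hj
  · rw [coeff_ar' _ _ _ hN, coeff_ar' _ _ _ hN]

theorem chi_level {V : Type} [Fintype V] (F : MvPolynomial V K) (N : ℕ) :
    M.χ (V × Fin (N + 1)) (van F N (N + 1)) = cl M F N * M.L ^ Fintype.card V := by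
  classical
  let F1 : Finset (V × Fin (N + 1)) := Finset.univ.filter fun p => p.2 = Fin.last N
  have hcard : F1.card = Fintype.card V := by
    have : F1 = (Finset.univ : Finset V) ×ˢ ({Fin.last N} : Finset (Fin (N + 1))) := by
      ext p
      simp only [F1, Finset.mem_filter, Finset.mem_univ, true_and, Finset.mem_product,
        Finset.mem_singleton]
    rw [this, Finset.card_product, Finset.card_singleton, mul_one, Finset.card_univ]
  have h1 := free_coords M (van F N (N + 1)) F1 (constr_van _ _ _) (by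
    intro z w hzw hz j hj
    rw [coeff_aeval_congr F N (ar w) (ar z) (fun i k hk => ?_) j hj]
    · exact hz j hj
    · refine ar_congr z w N (fun i j hj => hzw _ ?_) i k hk
      simp only [F1, Finset.mem_filter, Finset.mem_univ, true_and]
      intro he
      rw [he] at hj
      simp at hj)
  rw [h1, hcard]
  congr 1
  refine M.iso _ _ ((constr_van _ _ _).inter (Constr.ballFinset _ fun p _ =>
    Constr.eqz (IsPF.coord _))) (constr_van _ _ _) (fun z p => z (p.1, p.2.castSucc))
    (fun z p => if h : (p.2 : ℕ) < N then z (p.1, ⟨p.2, h⟩) else 0)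
    (regularOn_poly (fun p => IsPF.coord _) _) (regularOn_poly (fun p => ?_) _) ?_ ?_ ?_ ?_
  · by_cases h : (p.2 : ℕ) < N
    · simp only [dif_pos h]
      exact IsPF.coord _
    · simp only [dif_neg h]
      exact IsPF.zero
  · rintro z ⟨hz, -⟩ j hj
    rw [coeff_aeval_congr F N _ (ar z) (fun i k hk => ?_) j hj]
    · exact hz j hj
    · rw [coeff_ar _ _ _ hk, coeff_ar _ _ _ (by omega)]
      rfl
  · intro z hz
    refine ⟨fun j hj => ?_, fun p hp => ?_⟩
    · rw [coeff_aeval_congr F N _ (ar z) (fun i k hk => ?_) j hj]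
      · exact hz j hj
      · rw [coeff_ar _ _ _ hk, coeff_ar _ _ _ (by omega)]
        simp only
        rw [dif_pos hk]
    · simp only [F1, Finset.mem_filter, Finset.mem_univ, true_and] at hp
      simp only [hp]
      rw [dif_neg (by simp)]
  · rintro z ⟨-, hz⟩
    funext p
    simp only
    split_ifs with h
    · rfl
    · refine (hz p ?_).symm
      simp only [F1, Finset.mem_filter, Finset.mem_univ, true_and]
      apply Fin.ext
      have := p.2.2
      simp only [Fin.val_last]
      omega
  · intro z _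
    funext p
    simp

end Pool.Agent.W206.MO
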