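import Pool.Agent.W206.MO.Alpha

set_option autoImplicit false

/-! The jets of `∑ t_j f_j(x)`. -/

namespace Pool.Agent.W206.MO

open MvPolynomial
open Pool.Agent.W428.MOT Pool.Agent.W375.MT

variable {K : Type} [Field K] {V : Type} {r : ℕ}

/-- `∑_j t_j f_j(x)` -/
noncomputable def lin (f : Fin r → MvPolynomial V K) : MvPolynomial (V ⊕ Fin r) K :=
  ∑ j, X (Sum.inr j) * rename Sum.inl (f j)

theorem aeval_lin (f : Fin r → MvPolynomial V K)
    (γ : V ⊕ Fin r → PowerSeries (AlgebraicClosure K)) :
    aeval γ (lin f) = ∑ j, γ (Sum.inr j) * aeval (fun i => γ (Sum.inl i)) (f j) := by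
  rw [lin, map_sum]
  refine Finset.sum_congr rfl fun j _ => ?_
  rw [map_mul, aeval_X, aeval_rename]
  rfl

/-- The jets on which all the `f_i` vanish to order `k`. -/
def vanI (f : Fin r → MvPolynomial V K) (k N : ℕ) : Set (Pt K (V × Fin N)) :=
  {z | ∀ i, ∀ j < k, PowerSeries.coeff j (aeval (ar z) (f i)) = 0}

/-- The jets `(x, t)` with `ord (f_i(x)) = k`, `i = j` being the first index with this order, and
`ord (f_i(x)) ≥ k` for all `i`. -/
def Qi (f : Fin r → MvPolynomial V K) (k : ℕ) (j : Fin r) (N : ℕ) :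
    Set (Pt K ((V ⊕ Fin r) × Fin N)) :=
  {z | (∀ i, ∀ l < k, PowerSeries.coeff l (aeval (fun v => ar z (Sum.inl v)) (f i)) = 0) ∧
    (∀ i, i < j → PowerSeries.coeff k (aeval (fun v => ar z (Sum.inl v)) (f i)) = 0) ∧
    PowerSeries.coeff k (aeval (fun v => ar z (Sum.inl v)) (f j)) ≠ 0}

/-- The jets `(x, t)` with `f_i(x) = 0` for all `i`. -/
def Ai (f : Fin r → MvPolynomial V K) (N : ℕ) : Set (Pt K ((V ⊕ Fin r) × Fin N)) :=
  {z | ∀ i, ∀ l < N, PowerSeries.coeff l (aeval (fun v => ar z (Sum.inl v)) (f i)) = 0}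

theorem isPA_inl (F : MvPolynomial V K) (N : ℕ) :
    IsPA (fun z : Pt K ((V ⊕ Fin r) × Fin N) => aeval (fun v => ar z (Sum.inl v)) F) :=
  isPA_aeval (fun v z => ar z (Sum.inl v)) (fun v => isPA_ar (Sum.inl v)) F

theorem constr_vanI (f : Fin r → MvPolynomial V K) (k N : ℕ) : Constr (vanI f k N) :=
  Constr.all fun i => Constr.allLt _ fun j _ =>
    Constr.eqz (isPA_aeval (fun i z => ar z i) (fun i => isPA_ar i) (f i) j)

theorem constr_Ai (f : Fin r → MvPolynomial V K) (N : ℕ) : Constr (Ai f N) :=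
  Constr.all fun i => Constr.allLt _ fun j _ => Constr.eqz (isPA_inl (f i) N j)

theorem constr_Qi (f : Fin r → MvPolynomial V K) (k : ℕ) (j : Fin r) (N : ℕ) :
    Constr (Qi f k j N) :=
  Constr.and (Constr.all fun i => Constr.allLt _ fun l _ => Constr.eqz (isPA_inl (f i) N l))
    (Constr.and (Constr.all fun i => Constr.imp' fun _ => Constr.eqz (isPA_inl (f i) N k))
      (Constr.eqz (isPA_inl (f j) N k)).not)

section

variable [DecidableEq V]

/-- Changing the coefficient `t_{j, N - k}`. -/
theorem coeff_updateI (f : Fin r → MvPolynomial V K) {N k : ℕ} (hk : k ≤ N) (j : Fin r)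
    (z : Pt K ((V ⊕ Fin r) × Fin (N + 1)))
    (hz : ∀ l < k, PowerSeries.coeff l (aeval (fun v => ar z (Sum.inl v)) (f j)) = 0)
    (w : AlgebraicClosure K) (l : ℕ) (hl : l ≤ N) :
    PowerSeries.coeff l (aeval (ar (Function.update z
      (Sum.inr j, (⟨N - k, by omega⟩ : Fin (N + 1))) w)) (lin f)) =
    PowerSeries.coeff l (aeval (ar z) (lin f)) + if l = N then
      PowerSeries.coeff k (aeval (fun v => ar z (Sum.inl v)) (f j)) *
        (w - z (Sum.inr j, ⟨N - k, by omega⟩)) else 0 := by
  rw [aeval_lin, aeval_lin]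
  set z' := Function.update z (Sum.inr j, (⟨N - k, by omega⟩ : Fin (N + 1))) w with hz'
  have h1 : (fun v : V => ar z' (Sum.inl v)) = fun v => ar z (Sum.inl v) := by
    funext v
    exact ar_update_of_ne _ _ _ _ (by simp)
  have h2 : ∀ i : Fin r, ar z' (Sum.inr i) = ar z (Sum.inr i) +
      if i = j then PowerSeries.X ^ (N - k) *
        PowerSeries.C (w - z (Sum.inr j, ⟨N - k, by omega⟩)) else 0 := by
    intro i
    by_cases hi : i = j
    · subst hi
      rw [hz', ar_update_self, if_pos rfl]
    · rw [hz', ar_update_of_ne _ _ _ _ (by simpa using hi), if_neg hi, add_zero]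
  rw [h1]
  simp only [h2, add_mul, ite_mul, zero_mul, Finset.sum_add_distrib, Finset.sum_ite_eq',
    Finset.mem_univ, if_true, map_add]
  congr 1
  rw [mul_assoc, PowerSeries.coeff_X_pow_mul', PowerSeries.coeff_C_mul]
  split_ifs with h3 h4 h4
  · have : l - (N - k) = k := by omega
    rw [this, mul_comm]
  · rw [hz _ (by omega), mul_zero]
  · omega
  · rfl

end

variable [Fintype V] {R : Type} [CommRing R] (M : Meas K R)

theorem chi_stratumI (f : Fin r → MvPolynomial V K) (N k : ℕ) (j : Fin r) (hk : k ≤ N) :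
    M.χ _ (Qi f k j (N + 1) ∩ van (lin f) N (N + 1)) =
      M.χ _ (Qi f k j (N + 1) ∩ van (lin f) (N + 1) (N + 1)) * M.L := by
  classical
  let p : (V ⊕ Fin r) × Fin (N + 1) := (Sum.inr j, (⟨N - k, by omega⟩ : Fin (N + 1)))
  have hQ : ∀ (z : Pt K ((V ⊕ Fin r) × Fin (N + 1))) (w : AlgebraicClosure K),
      (fun v => ar (Function.update z p w) (Sum.inl v)) = fun v => ar z (Sum.inl v) := by
    intro z w
    funext v
    exact ar_update_of_ne z p w (Sum.inl v) (by simp [p])
  have hmem : ∀ (z : Pt K ((V ⊕ Fin r) × Fin (N + 1))) (w : AlgebraicClosure K),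
      Function.update z p w ∈ Qi f k j (N + 1) ∩ van (lin f) N (N + 1) ↔
        z ∈ Qi f k j (N + 1) ∩ van (lin f) N (N + 1) := by
    intro z w
    have h1 : Function.update z p w ∈ Qi f k j (N + 1) ↔ z ∈ Qi f k j (N + 1) := by
      simp only [Qi, Set.mem_ofPred_eq, hQ]
    rw [Set.mem_inter_iff, Set.mem_inter_iff, h1]
    refine and_congr_right fun hz => ?_
    simp only [van, Set.mem_ofPred_eq]
    refine forall_congr' fun l => forall_congr' fun hl => ?_
    rw [coeff_updateI f hk j z (hz.1 j) w l (by omega), if_neg (by omega), add_zero]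
  have e1 := free_coords M (Qi f k j (N + 1) ∩ van (lin f) N (N + 1)) {p}
    ((constr_Qi _ _ _ _).inter (constr_van _ _ _)) (by
      intro z w hzw hz
      have : w = Function.update z p (w p) := by
        funext q
        by_cases hq : q = p
        · subst hq
          simp
        · rw [Function.update_of_ne hq]
          exact hzw q (by simpa using hq)
      rw [this, hmem]
      exact hz)
  rw [Finset.card_singleton, pow_one] at e1
  rw [e1]
  congr 1
  symm
  refine Pool.Agent.W21.MTSub.main M _ _ p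
    (fun z => PowerSeries.coeff k (aeval (fun v => ar z (Sum.inl v)) (f j)))
    (fun z => PowerSeries.coeff N (aeval (ar (Function.update z p 0)) (lin f)))
    ((constr_Qi _ _ _ _).inter (constr_van _ _ _))
    (((constr_Qi _ _ _ _).inter (constr_van _ _ _)).inter
      (Constr.ballFinset _ fun q _ => Constr.eqz (IsPF.coord _))) (isPA_inl _ _ _) ?_ ?_ ?_ ?_ ?_ ?_
  · refine (isPA_aeval (fun i z => ar z i) (fun i => isPA_ar i) (lin f) N).comp
      (fun z => Function.update z p 0) (fun q => ?_)
    by_cases hq : q = p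
    · subst hq
      simp only [Function.update_self]
      exact IsPF.zero
    · simp only [Function.update_of_ne hq]
      exact IsPF.coord _
  · intro z w
    simp only [hQ]
  · intro z w
    simp only [Function.update_idem]
  · intro z hz
    exact hz.1.2.2
  · intro z hz
    exact hz.1.1.2.2
  · intro z hz
    have h1 : ∀ w : AlgebraicClosure K, Function.update z p w ∈
        (Qi f k j (N + 1) ∩ van (lin f) N (N + 1)) ∩ {z | ∀ q ∈ ({p} : Finset _), z q = 0} ↔
        z ∈ Qi f k j (N + 1) ∩ van (lin f) N (N + 1) ∧ w = 0 := by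
      intro w
      rw [Set.mem_inter_iff, hmem]
      simp
    rw [h1]
    constructor
    · rintro ⟨h2, h3⟩
      refine ⟨⟨h2, fun j hj => h3 j (by omega)⟩, ?_⟩
      rw [coeff_updateI f hk j z (h2.1 j) 0 N le_rfl, if_pos rfl, h3 N (by omega)]
      ring
    · rintro ⟨⟨h2, h3⟩, h4⟩
      refine ⟨h2, fun l hl => ?_⟩
      by_cases hlN : l = N
      · subst hlN
        rw [coeff_updateI f hk j z (h2.1 j) 0 l le_rfl, if_pos rfl] at h4
        linear_combination h4
      · exact h3 l (by omega)

theorem chi_Ai (f : Fin r → MvPolynomial V K) (N : ℕ) :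
    M.χ _ (Ai f N) = M.χ _ (vanI f N N) * M.L ^ (r * N) := by
  classical
  let F1 : Finset ((V ⊕ Fin r) × Fin N) := Finset.univ.filter fun p => p.1.isRight
  have hcard : F1.card = r * N := by
    have : F1 = (Finset.univ.filter fun v : V ⊕ Fin r => v.isRight) ×ˢ
        (Finset.univ : Finset (Fin N)) := by
      ext p
      simp only [F1, Finset.mem_filter, Finset.mem_univ, and_true, true_and, Finset.mem_product]
    rw [this, Finset.card_product, Finset.card_univ, Fintype.card_fin]
    congr 1
    have h2 : (Finset.univ.filter fun v : V ⊕ Fin r => v.isRight) =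
        (Finset.univ : Finset (Fin r)).map ⟨Sum.inr, Sum.inr_injective⟩ := by
      ext v
      rcases v with v | v <;> simp
    rw [h2, Finset.card_map, Finset.card_univ, Fintype.card_fin]
  have hmem : ∀ z : Pt K ((V ⊕ Fin r) × Fin N), z ∈ Ai f N ↔
      (fun p : V × Fin N => z (Sum.inl p.1, p.2)) ∈ vanI f N N := by
    intro z
    rfl
  have h1 := free_coords M (Ai f N) F1 (constr_Ai f N) (by
    intro z w hzw hz
    rw [hmem] at hz ⊢
    have : (fun p : V × Fin N => w (Sum.inl p.1, p.2)) =
        fun p : V × Fin N => z (Sum.inl p.1, p.2) := by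
      funext p
      exact hzw _ (by simp [F1])
    rw [this]
    exact hz)
  rw [h1, hcard]
  congr 1
  refine M.iso _ _ ((constr_Ai f N).inter (Constr.ballFinset _ fun p _ =>
    Constr.eqz (IsPF.coord _)))
    (constr_vanI _ _ _) (fun z p => z (Sum.inl p.1, p.2))
    (fun z p => Sum.elim (fun i => z (i, p.2)) (fun _ => 0) p.1)
    (regularOn_poly (fun p => IsPF.coord _) _) (regularOn_poly ?_ _) ?_ ?_ ?_ ?_
  · rintro ⟨i | i, j⟩
    · exact IsPF.coord _
    · exact IsPF.zero
  · rintro z ⟨hz, -⟩
    exact (hmem z).1 hz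
  · intro z hz
    refine ⟨(hmem _).2 hz, fun p hp => ?_⟩
    simp only [F1, Finset.mem_filter, Finset.mem_univ, true_and] at hp
    obtain ⟨v | v, j⟩ := p
    · simp at hp
    · rfl
  · rintro z ⟨hz, hz'⟩
    funext p
    obtain ⟨i | i, j⟩ := p
    · rfl
    · exact (hz' _ (by simp [F1])).symm
  · intro z _
    rfl

omit [Fintype V] in
theorem Ai_subset (f : Fin r → MvPolynomial V K) (k N : ℕ) (hk : k ≤ N) :
    Ai f N ⊆ van (lin f) k N := by
  intro z hz l hl
  rw [aeval_lin, map_sum]
  refine Finset.sum_eq_zero fun i _ => ?_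
  rw [PowerSeries.coeff_mul]
  refine Finset.sum_eq_zero fun ab hab => ?_
  have := Finset.HasAntidiagonal.mem_antidiagonal.1 hab
  rw [hz i ab.2 (by omega), mul_zero]

/-- The partition by the order of the ideal. -/
theorem chi_partitionI {N : ℕ} (f : Fin r → MvPolynomial V K) (S : Set (Pt K ((V ⊕ Fin r) × Fin N)))
    (hS : Constr S) :
    M.χ _ S = M.χ _ (Ai f N ∩ S) +
      ∑ p ∈ Finset.range N ×ˢ (Finset.univ : Finset (Fin r)), M.χ _ (Qi f p.1 p.2 N ∩ S) := by
  classical
  have hC : ∀ p ∈ Finset.range N ×ˢ (Finset.univ : Finset (Fin r)),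
      Constr (Qi f p.1 p.2 N ∩ S) := fun p _ => (constr_Qi f _ _ _).inter hS
  rw [← chi_biUnion M (Finset.range N ×ˢ (Finset.univ : Finset (Fin r)))
    (fun p => Qi f p.1 p.2 N ∩ S) hC, ← M.add]
  · congr 1
    ext z
    simp only [Set.mem_union, Set.mem_inter_iff, Set.mem_iUnion, Finset.mem_product,
      Finset.mem_range, Finset.mem_univ, and_true, exists_prop, Prod.exists]
    constructor
    · intro hz
      by_cases h : z ∈ Ai f N
      · exact Or.inl ⟨h, hz⟩
      · right
        have hex : ∃ k, k < N ∧ ∃ i : Fin r,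
            PowerSeries.coeff k (aeval (fun v => ar z (Sum.inl v)) (f i)) ≠ 0 := by
          by_contra hcon
          push Not at hcon
          exact h fun i l hl => hcon l hl i
        obtain ⟨hk, hk2⟩ := Nat.find_spec hex
        obtain ⟨j, hj, hj2⟩ := WellFounded.has_min (wellFounded_lt (α := Fin r))
          {i | PowerSeries.coeff (Nat.find hex) (aeval (fun v => ar z (Sum.inl v)) (f i)) ≠ 0} hk2
        refine ⟨Nat.find hex, j, hk, ⟨fun i l hl => ?_, fun i hi => ?_, hj⟩, hz⟩
        · have := Nat.find_min hex hl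
          push Not at this
          exact this (lt_trans hl hk) i
        · by_contra hne
          exact hj2 i hne hi
    · rintro (h | ⟨k, j, -, h⟩)
      · exact h.2
      · exact h.2
  · exact (constr_Ai f N).inter hS
  · exact constr_biUnion _ _ hC
  · rw [Set.disjoint_left]
    rintro z ⟨h1, -⟩ h2
    simp only [Set.mem_iUnion, Finset.mem_product, Finset.mem_range, Finset.mem_univ, and_true,
      exists_prop, Prod.exists] at h2
    obtain ⟨k, j, hk, h3, -⟩ := h2
    exact h3.2.2 (h1 j k hk)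
  · rintro ⟨k, j⟩ _ ⟨k', j'⟩ _ hne
    rw [Set.disjoint_left]
    rintro z ⟨h1, -⟩ ⟨h2, -⟩
    rcases lt_trichotomy k k' with h | h | h
    · exact h1.2.2 (h2.1 j k h)
    · subst h
      rcases lt_trichotomy j j' with h | h | h
      · exact h1.2.2 (h2.2.1 j h)
      · exact hne (by rw [h])
      · exact h2.2.2 (h1.2.1 j' h)
    · exact h2.2.2 (h1.1 j' k' h)

/-- The class of the jets on which all the `f_i` vanish. -/
noncomputable def clI (f : Fin r → MvPolynomial V K) (N : ℕ) : R := M.χ (V × Fin N) (vanI f N N)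

theorem cl_lin (f : Fin r → MvPolynomial V K) (N : ℕ) :
    cl M (lin f) N * M.L ^ (Fintype.card V + r) - clI M f (N + 1) * M.L ^ (r * (N + 1)) =
      (cl M (lin f) (N + 1) - clI M f (N + 1) * M.L ^ (r * (N + 1))) * M.L := by
  classical
  have h1 := chi_partitionI M f (van (lin f) N (N + 1)) (constr_van _ _ _)
  have h2 := chi_partitionI M f (van (lin f) (N + 1) (N + 1)) (constr_van _ _ _)
  rw [Set.inter_eq_left.2 (Ai_subset f N (N + 1) (by omega)), chi_Ai, chi_level M (lin f) N] at h1
  rw [Set.inter_eq_left.2 (Ai_subset f (N + 1) (N + 1) le_rfl), chi_Ai] at h2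
  have h3 : ∑ p ∈ Finset.range (N + 1) ×ˢ (Finset.univ : Finset (Fin r)),
      M.χ _ (Qi f p.1 p.2 (N + 1) ∩ van (lin f) N (N + 1)) =
      (∑ p ∈ Finset.range (N + 1) ×ˢ (Finset.univ : Finset (Fin r)),
        M.χ _ (Qi f p.1 p.2 (N + 1) ∩ van (lin f) (N + 1) (N + 1))) * M.L := by
    rw [Finset.sum_mul]
    refine Finset.sum_congr rfl fun p hp => ?_
    rw [Finset.mem_product, Finset.mem_range] at hp
    exact chi_stratumI M f N p.1 p.2 (by omega)
  rw [h3] at h1
  have hc : Fintype.card (V ⊕ Fin r) = Fintype.card V + r := by simp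
  rw [hc] at h1
  unfold cl clI
  unfold cl at h1
  linear_combination h1 - M.L * h2

/-! ### Volumes -/

variable (Y : R)

/-- The volume of the set of the arcs on which all the `f_i` have order at least `N`. -/
noncomputable def alI (f : Fin r → MvPolynomial V K) (N : ℕ) : R :=
  clI M f N * Y ^ (Fintype.card V * N)

theorem alI_zero (f : Fin r → MvPolynomial V K) : alI M Y f 0 = 1 := by
  rw [alI, mul_zero, pow_zero, mul_one, clI]
  have h : vanI f 0 0 = Set.univ := by
    ext z
    simp [vanI]
  rw [h]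
  exact M.point

theorem al_lin (hY : M.L * Y = 1) (f : Fin r → MvPolynomial V K) (N : ℕ) :
    al M Y (lin f) (N + 1) - Y * al M Y (lin f) N = (1 - Y) * alI M Y f (N + 1) := by
  have h := cl_lin M f N
  have hc : Fintype.card (V ⊕ Fin r) = Fintype.card V + r := by simp
  unfold al alI
  rw [hc]
  generalize Fintype.card V = v at *
  have e1 : ∀ k j : ℕ, M.L ^ k * Y ^ (k + j) = Y ^ j := fun k j => by
    rw [pow_add, ← mul_assoc, ← mul_pow, hY, one_pow, one_mul]
  have h2 := congrArg (fun x => x * Y ^ ((v + r) * (N + 1))) h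
  beta_reduce at h2
  have e2 : M.L ^ (v + r) * Y ^ ((v + r) * (N + 1)) = Y ^ ((v + r) * N) := by
    rw [show (v + r) * (N + 1) = (v + r) + ((v + r) * N) by ring, e1]
  have e3 : M.L ^ (r * (N + 1)) * Y ^ ((v + r) * (N + 1)) = Y ^ (v * (N + 1)) := by
    rw [show (v + r) * (N + 1) = r * (N + 1) + v * (N + 1) by ring, e1]
  have h3 : cl M (lin f) N * Y ^ ((v + r) * N) - clI M f (N + 1) * Y ^ (v * (N + 1)) =
      (cl M (lin f) (N + 1) * Y ^ ((v + r) * (N + 1)) -
        clI M f (N + 1) * Y ^ (v * (N + 1))) * M.L := by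
    linear_combination h2 - (cl M (lin f) N) * e2 + (clI M f (N + 1)) * e3 -
      (clI M f (N + 1)) * M.L * e3
  linear_combination -Y * h3 - (cl M (lin f) (N + 1) * Y ^ ((v + r) * (N + 1)) -
        clI M f (N + 1) * Y ^ (v * (N + 1))) * hY

/-- The generating series of the volumes for an ideal. -/
noncomputable def serI (f : Fin r → MvPolynomial V K) : PowerSeries R :=
  PowerSeries.mk (alI M Y f)

theorem ser_lin (hY : M.L * Y = 1) (f : Fin r → MvPolynomial V K) :
    (1 - PowerSeries.C Y * PowerSeries.X) * ser M Y (lin f) =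
      1 + PowerSeries.C (1 - Y) * (serI M Y f - 1) := by
  ext N
  rcases N with _ | N
  · rw [coeff_ser_zero]
    simp [serI, alI_zero]
  · rw [coeff_ser_succ, al_lin M Y hY, map_add, PowerSeries.coeff_C_mul, map_sub,
      PowerSeries.coeff_one, if_neg (by omega)]
    simp [serI]

/-- The zeta function of `F`: the coefficient of `T ^ l` is the volume of the set of the arcs
`φ` with `ord F(φ) = l`. -/
noncomputable def zV (F : MvPolynomial V K) : PowerSeries R :=
  PowerSeries.mk fun l => al M Y F l - al M Y F (l + 1)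

/-- The zeta function of an ideal. -/
noncomputable def zI (f : Fin r → MvPolynomial V K) : PowerSeries R :=
  PowerSeries.mk fun l => alI M Y f l - alI M Y f (l + 1)

theorem zV_eq (F : MvPolynomial V K) :
    (1 - PowerSeries.X) * ser M Y F = 1 - PowerSeries.X * zV M Y F := by
  ext N
  rcases N with _ | N
  · simp [ser, al_zero, sub_mul]
  · rw [sub_mul, one_mul, map_sub, map_sub, PowerSeries.coeff_succ_X_mul,
      PowerSeries.coeff_succ_X_mul, PowerSeries.coeff_one, if_neg (by omega)]
    simp only [ser, zV, PowerSeries.coeff_mk]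
    ring

theorem zI_eq (f : Fin r → MvPolynomial V K) :
    (1 - PowerSeries.X) * serI M Y f = 1 - PowerSeries.X * zI M Y f := by
  ext N
  rcases N with _ | N
  · simp [serI, alI_zero, sub_mul]
  · rw [sub_mul, one_mul, map_sub, map_sub, PowerSeries.coeff_succ_X_mul,
      PowerSeries.coeff_succ_X_mul, PowerSeries.coeff_one, if_neg (by omega)]
    simp only [serI, zI, PowerSeries.coeff_mk]
    ring

theorem zV_iso {V' : Type} [Fintype V'] (e : MvPolynomial V K ≃ₐ[K] MvPolynomial V' K)
    (F : MvPolynomial V K) : zV M Y (e F) = zV M Y F := by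
  unfold zV
  simp only [al_iso]

theorem X_cancel {A B : PowerSeries R} (h : PowerSeries.X * A = PowerSeries.X * B) : A = B := by
  ext k
  have := congrArg (PowerSeries.coeff (k + 1)) h
  rwa [PowerSeries.coeff_succ_X_mul, PowerSeries.coeff_succ_X_mul] at this

/-- `(1 - 𝕃⁻¹ T) Z_{∑ t_j f_j} = (1 - 𝕃⁻¹) Z_I`. -/
theorem zV_lin (hY : M.L * Y = 1) (f : Fin r → MvPolynomial V K) :
    (1 - PowerSeries.C Y * PowerSeries.X) * zV M Y (lin f) =
      PowerSeries.C (1 - Y) * zI M Y f := by
  have h1 := zV_eq M Y (lin f)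
  have h2 := zI_eq M Y f
  have h3 := ser_lin M Y hY f
  apply X_cancel
  have h4 : PowerSeries.C (1 - Y) = 1 - PowerSeries.C Y := by rw [map_sub, map_one]
  rw [h4] at h3 ⊢
  linear_combination (1 - PowerSeries.C Y * PowerSeries.X) * h1 - (1 - PowerSeries.C Y) * h2 -
    (1 - PowerSeries.X) * h3

end Pool.Agent.W206.MO
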