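import Pool.Agent.W206.MO.Poles
import Pool.Agent.W206.CU.Red1
import Pool.Agent.W206.CU.RedX

set_option autoImplicit false

/-! The motivic zeta function and the `b`-function along the moves. -/

namespace Pool.Agent.W206.MO

open MvPolynomial
open Pool.Agent.W428.MOT Pool.Agent.W375.MT Pool.Agent.W375.MG
open Pool.Agent.H628R4.TP (weylS IsBFunction IsBernsteinSatoOf)
open Pool.Agent.W206.CU

/-- The property which is followed along the moves which start at `f`. -/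
def Follow {n : ℕ} (M : Meas ℂ (MK ℂ)) (f : MvPolynomial (Fin n) ℂ) (ρ : Type) [Fintype ρ] (m : ℕ)
    (F : MvPolynomial ρ ℂ) : Prop :=
  (∀ B : Polynomial ℂ, BS1 f B → BS1 F (B.comp (Polynomial.X + Polynomial.C (m : ℂ)))) ∧
  (∀ N : ℕ, al M (((Lu ℂ)⁻¹ : (MK ℂ)ˣ) : MK ℂ) F (N + 1) -
      (((Lu ℂ)⁻¹ : (MK ℂ)ˣ) : MK ℂ) * al M (((Lu ℂ)⁻¹ : (MK ℂ)ˣ) : MK ℂ) F N =
    (((Lu ℂ)⁻¹ : (MK ℂ)ˣ) : MK ℂ) ^ (m * (N + 1)) *
      (al M (((Lu ℂ)⁻¹ : (MK ℂ)ˣ) : MK ℂ) f (N + 1) -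
        (((Lu ℂ)⁻¹ : (MK ℂ)ˣ) : MK ℂ) * al M (((Lu ℂ)⁻¹ : (MK ℂ)ˣ) : MK ℂ) f N))

theorem follow_chain {n : ℕ} (M : Meas ℂ (MK ℂ))
    (hL : M.L * (((Lu ℂ)⁻¹ : (MK ℂ)ˣ) : MK ℂ) = 1) (f : MvPolynomial (Fin n) ℂ) :
    KR.Chain (fun ρ _ m F => Follow M f ρ m F) where
  iso ρ ρ' _ _ e m F h := by
    refine ⟨fun B hB => bs1_iso e (h.1 B hB), fun N => ?_⟩
    rw [al_iso, al_iso]
    exact h.2 N
  step ρ _ m F h := by
    refine ⟨fun B hB => ?_, fun N => ?_⟩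
    · have h1 := bs1_step (h.1 B hB)
      rw [Polynomial.comp_assoc] at h1
      have h2 : (Polynomial.X + Polynomial.C (m : ℂ)).comp (Polynomial.X + 1) =
          (Polynomial.X + Polynomial.C ((m + 1 : ℕ) : ℂ) : Polynomial ℂ) := by
        simp only [Polynomial.add_comp, Polynomial.X_comp, Polynomial.C_comp, Nat.cast_add,
          Nat.cast_one, map_add, map_one]
        ring
      rw [h2] at h1
      exact h1
    · change al M _ (nxt F) (N + 1) - _ * al M _ (nxt F) N = _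
      rw [al_step M _ hL, h.2 N, ← mul_assoc, ← pow_add]
      congr 2
      ring

theorem follow_start {n : ℕ} (M : Meas ℂ (MK ℂ)) (f : MvPolynomial (Fin n) ℂ) :
    Follow M f (Fin n) 0 f := by
  refine ⟨fun B hB => ?_, fun N => ?_⟩
  · simpa using hB
  · rw [zero_mul, pow_zero, one_mul]

theorem fac_neg_one (K : Type) [Field K] : fac K (-1, 1) =
    1 - PowerSeries.C (((Lu K)⁻¹ : (MK K)ˣ) : MK K) * PowerSeries.X := by
  simp [fac]

theorem fac_zero (K : Type) [Field K] : fac K (0, 1) = 1 - PowerSeries.X := by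
  simp [fac]

/-- The transfer of poles. -/
theorem pole_transfer {n n' m : ℕ} (M : Meas ℂ (MK ℂ))
    (hL : M.L * (((Lu ℂ)⁻¹ : (MK ℂ)ˣ) : MK ℂ) = 1)
    (hM : ∀ (ι : Type) [Fintype ι] (S : Set (Pt ℂ ι)),
      M.χ ι S = algebraMap (K0 ℂ) (MK ℂ) (cls ι S))
    {f : MvPolynomial (Fin n) ℂ} {g : MvPolynomial (Fin n') ℂ} (h : Follow M f (Fin n') m g)
    {s : ℚ} (hs : s ≠ -1) (hs' : s - m ≠ 0) (hp : IsPole (zetaOrd f Set.univ) s) :
    IsPole (zetaOrd g Set.univ) (s - m) := by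
  intro hZ
  apply hp
  change zetaOrd g Set.univ ∈ ratRing ℂ (Sp (s - m)) at hZ
  change zetaOrd f Set.univ ∈ ratRing ℂ (Sp s)
  set Y : MK ℂ := (((Lu ℂ)⁻¹ : (MK ℂ)ˣ) : MK ℂ) with hYdef
  have h1 : ser M Y g ∈ ratRing ℂ (Sp (s - m)) := by
    have hp1 : ((0, 1) : ℤ × ℤ) ∈ Sp (s - m) := by
      refine ⟨one_pos, fun h0 => hs' ?_⟩
      rw [← h0]
      simp
    refine cancel_fac hp1 one_pos ?_
    rw [fac_zero, zeta_eq M hL hM]
    exact (ratRing ℂ _).sub_mem (ratRing ℂ _).one_mem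
      ((ratRing ℂ _).mul_mem (Pool.Agent.W63.MTFin.X_mem _) hZ)
  have h2 : (1 - PowerSeries.C Y * PowerSeries.X) * ser M Y g ∈ ratRing ℂ (Sp (s - m)) := by
    rw [hYdef, ← fac_neg_one]
    exact (ratRing ℂ _).mul_mem (fac_mem _ _) h1
  rw [ser_follow M Y f g h.2] at h2
  have h3 := rescale_mem (m : ℤ) (s - m) h2
  have h4 : (((Lu ℂ) ^ (m : ℤ) : (MK ℂ)ˣ) : MK ℂ) * Y ^ m = 1 := by
    rw [zpow_natCast, hYdef, ← Units.val_pow_eq_pow_val, ← Units.val_mul, ← mul_pow,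
      mul_inv_cancel, one_pow, Units.val_one]
  rw [PowerSeries.rescale_rescale, mul_comm, h4, PowerSeries.rescale_one, RingHom.id_apply] at h3
  have h5 : s - (m : ℚ) + ((m : ℤ) : ℚ) = s := by push_cast; ring
  rw [h5] at h3
  have h6 : ser M Y f ∈ ratRing ℂ (Sp s) := by
    have hp1 : ((-1, 1) : ℤ × ℤ) ∈ Sp s := by
      refine ⟨one_pos, fun h0 => hs ?_⟩
      rw [← h0]
      simp
    refine cancel_fac hp1 one_pos ?_
    rw [fac_neg_one]
    exact h3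
  refine mem_of_X_mul (fun p hp => hp.1) ?_
  have h7 : PowerSeries.X * zetaOrd f Set.univ = 1 - fac ℂ (0, 1) * ser M Y f := by
    rw [fac_zero, zeta_eq M hL hM]
    ring
  rw [h7]
  exact (ratRing ℂ _).sub_mem (ratRing ℂ _).one_mem ((ratRing ℂ _).mul_mem (fac_mem _ _) h6)

theorem comp_ne_zero {b : Polynomial ℂ} (hb : b ≠ 0) (c : ℂ) :
    b.comp (Polynomial.X + Polynomial.C c) ≠ 0 := by
  intro h
  apply hb
  have h2 := congrArg (fun q : Polynomial ℂ => q.comp (Polynomial.X + Polynomial.C (-c))) h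
  simpa [Polynomial.comp_assoc] using h2

end Pool.Agent.W206.MO
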