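import Pool.Agent.W206.MO.Alpha

set_option autoImplicit false

/-! Operations on the rings of rational series. -/

namespace Pool.Agent.W206.MO

open MvPolynomial
open Pool.Agent.W428.MOT Pool.Agent.W375.MT Pool.Agent.W375.MG
open Pool.Agent.W63.MTFin (geo_mul geo_mem X_mem C_mem poly_mem)

variable {K : Type} [Field K]

/-- The pairs `(a, b)`, `b > 0`, with `a / b ≠ s`. -/
def Sp (s : ℚ) : Set (ℤ × ℤ) := {p | 0 < p.2 ∧ ((p.1 : ℚ) / p.2) ≠ s}

theorem isPole_iff (Z : PowerSeries (MK K)) (s : ℚ) : IsPole Z s ↔ Z ∉ ratRing K (Sp s) := Iff.rfl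

/-- The factor `1 - 𝕃 ^ a T ^ b`. -/
noncomputable def fac (K : Type) [Field K] (p : ℤ × ℤ) : PowerSeries (MK K) :=
  1 - PowerSeries.C (((Lu K) ^ p.1 : (MK K)ˣ) : MK K) * PowerSeries.X ^ p.2.toNat

theorem fac_mul_geo (p : ℤ × ℤ) (hb : 0 < p.2) : fac K p * geo K p.1 p.2 = 1 := geo_mul _ _ hb

theorem fac_mem (S : Set (ℤ × ℤ)) (p : ℤ × ℤ) : fac K p ∈ ratRing K S :=
  (ratRing K S).sub_mem (ratRing K S).one_mem
    ((ratRing K S).mul_mem (C_mem S _) ((ratRing K S).pow_mem (X_mem S) _))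

theorem cancel_fac {S : Set (ℤ × ℤ)} {p : ℤ × ℤ} (hp : p ∈ S) (hb : 0 < p.2)
    {Q : PowerSeries (MK K)} (h : fac K p * Q ∈ ratRing K S) : Q ∈ ratRing K S := by
  have h1 := (ratRing K S).mul_mem h (geo_mem hp)
  have h2 : fac K p * Q * geo K p.1 p.2 = Q := by
    linear_combination Q * fac_mul_geo (K := K) p hb
  rwa [h2] at h1

theorem rescale_geo (m : ℤ) (a b : ℤ) (hb : 0 < b) :
    PowerSeries.rescale (((Lu K) ^ m : (MK K)ˣ) : MK K) (geo K a b) = geo K (a + m * b) b := by
  have h1 := congrArg (PowerSeries.rescale (((Lu K) ^ m : (MK K)ˣ) : MK K)) (geo_mul (K := K) a b hb)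
  have h2 := geo_mul (K := K) (a + m * b) b hb
  rw [map_mul, map_one, map_sub, map_one, map_mul, map_pow, PowerSeries.rescale_X] at h1
  have hC : ∀ c : MK K, PowerSeries.rescale (((Lu K) ^ m : (MK K)ˣ) : MK K) (PowerSeries.C c) =
      PowerSeries.C c := by
    intro c
    ext k
    rw [PowerSeries.coeff_rescale, PowerSeries.coeff_C]
    split_ifs with h
    · rw [h, pow_zero, one_mul]
    · rw [mul_zero]
  rw [hC] at h1
  have h3 : PowerSeries.C (((Lu K) ^ a : (MK K)ˣ) : MK K) *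
      (PowerSeries.C (((Lu K) ^ m : (MK K)ˣ) : MK K) * PowerSeries.X) ^ b.toNat =
      PowerSeries.C (((Lu K) ^ (a + m * b) : (MK K)ˣ) : MK K) * PowerSeries.X ^ b.toNat := by
    have hb' : ((b.toNat : ℕ) : ℤ) = b := Int.toNat_of_nonneg hb.le
    have h4 : (((Lu K) ^ m : (MK K)ˣ) : MK K) ^ b.toNat = (((Lu K) ^ (m * b) : (MK K)ˣ) : MK K) := by
      rw [← Units.val_pow_eq_pow_val, ← zpow_natCast, ← zpow_mul, hb']
    rw [mul_pow, ← map_pow, h4, ← mul_assoc, ← map_mul, ← Units.val_mul, ← zpow_add]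
  rw [h3] at h1
  calc _ = (PowerSeries.rescale (((Lu K) ^ m : (MK K)ˣ) : MK K) (geo K a b)) *
      ((1 - PowerSeries.C (((Lu K) ^ (a + m * b) : (MK K)ˣ) : MK K) * PowerSeries.X ^ b.toNat) *
        geo K (a + m * b) b) := by rw [h2, mul_one]
    _ = _ := by
      linear_combination (geo K (a + m * b) b) * h1

theorem rescale_mem (m : ℤ) (s : ℚ) {Q : PowerSeries (MK K)} (h : Q ∈ ratRing K (Sp s)) :
    PowerSeries.rescale (((Lu K) ^ m : (MK K)ˣ) : MK K) Q ∈ ratRing K (Sp (s + m)) := by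
  induction h using Algebra.adjoin_induction with
  | mem x hx =>
    rcases hx with hx | ⟨p, hp, rfl⟩
    · rw [Set.mem_singleton_iff.1 hx, PowerSeries.rescale_X]
      exact (ratRing K _).mul_mem (C_mem _ _) (X_mem _)
    · rw [rescale_geo _ _ _ hp.1]
      refine geo_mem (p := (p.1 + m * p.2, p.2)) ⟨hp.1, fun he => hp.2 ?_⟩
      have h0 : (p.2 : ℚ) ≠ 0 := by
        have := hp.1
        exact_mod_cast this.ne'
      simp only at he
      push_cast at he
      rw [add_div, mul_div_assoc, div_self h0] at he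
      linear_combination he
  | algebraMap r =>
    have : PowerSeries.rescale (((Lu K) ^ m : (MK K)ˣ) : MK K) (algebraMap (MK K) _ r) =
        algebraMap (MK K) _ r := by
      ext k
      rw [PowerSeries.coeff_rescale, PowerSeries.algebraMap_apply, PowerSeries.coeff_C]
      split_ifs with h
      · rw [h, pow_zero, one_mul]
      · rw [mul_zero]
    rw [this]
    exact (ratRing K _).algebraMap_mem r
  | add x y hx hy ihx ihy => rw [map_add]; exact (ratRing K _).add_mem ihx ihy
  | mul x y hx hy ihx ihy => rw [map_mul]; exact (ratRing K _).mul_mem ihx ihy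

/-- Common denominators. -/
theorem exists_den {S : Set (ℤ × ℤ)} (hS : ∀ p ∈ S, 0 < p.2) {Q : PowerSeries (MK K)}
    (h : Q ∈ ratRing K S) : ∃ (l : List (ℤ × ℤ)) (P : Polynomial (MK K)), (∀ p ∈ l, p ∈ S) ∧
      (l.map (fac K)).prod * Q = (P : PowerSeries (MK K)) := by
  have hpol : ∀ l : List (ℤ × ℤ), ∃ P : Polynomial (MK K),
      (l.map (fac K)).prod = (P : PowerSeries (MK K)) := by
    intro l
    induction l with
    | nil => exact ⟨1, by simp⟩
    | cons p l ih =>
      obtain ⟨P, hP⟩ := ih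
      refine ⟨(1 - Polynomial.C (((Lu K) ^ p.1 : (MK K)ˣ) : MK K) *
        Polynomial.X ^ p.2.toNat) * P, ?_⟩
      rw [List.map_cons, List.prod_cons, hP, fac]
      simp
  induction h using Algebra.adjoin_induction with
  | mem x hx =>
    rcases hx with hx | ⟨p, hp, rfl⟩
    · refine ⟨[], Polynomial.X, by simp, ?_⟩
      rw [Set.mem_singleton_iff.1 hx]
      simp
    · refine ⟨[p], 1, by simpa using hp, ?_⟩
      simp only [List.map_cons, List.map_nil, List.prod_cons, List.prod_nil, mul_one,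
        fac_mul_geo p (hS p hp), Polynomial.coe_one]
  | algebraMap r =>
    refine ⟨[], Polynomial.C r, by simp, ?_⟩
    simp [PowerSeries.algebraMap_apply]
  | add x y hx hy ihx ihy =>
    obtain ⟨l1, P1, h1, h2⟩ := ihx
    obtain ⟨l2, P2, h3, h4⟩ := ihy
    obtain ⟨D1, hD1⟩ := hpol l1
    obtain ⟨D2, hD2⟩ := hpol l2
    refine ⟨l1 ++ l2, D2 * P1 + D1 * P2, ?_, ?_⟩
    · intro p hp
      rcases List.mem_append.1 hp with hp | hp
      · exact h1 p hp
      · exact h3 p hp
    · rw [List.map_append, List.prod_append, Polynomial.coe_add, Polynomial.coe_mul,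
        Polynomial.coe_mul, ← h2, ← h4, ← hD1, ← hD2]
      ring
  | mul x y hx hy ihx ihy =>
    obtain ⟨l1, P1, h1, h2⟩ := ihx
    obtain ⟨l2, P2, h3, h4⟩ := ihy
    refine ⟨l1 ++ l2, P1 * P2, ?_, ?_⟩
    · intro p hp
      rcases List.mem_append.1 hp with hp | hp
      · exact h1 p hp
      · exact h3 p hp
    · rw [List.map_append, List.prod_append, Polynomial.coe_mul, ← h2, ← h4]
      ring

theorem mem_of_X_mul {S : Set (ℤ × ℤ)} (hS : ∀ p ∈ S, 0 < p.2) {Q : PowerSeries (MK K)}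
    (h : PowerSeries.X * Q ∈ ratRing K S) : Q ∈ ratRing K S := by
  obtain ⟨l, P, h1, h2⟩ := exists_den hS h
  have h3 : P.coeff 0 = 0 := by
    have := congrArg (PowerSeries.coeff 0) h2
    rw [Polynomial.coeff_coe] at this
    rw [← this]
    simp
  obtain ⟨P', rfl⟩ := Polynomial.X_dvd_iff.2 h3
  have h4 : (l.map (fac K)).prod * Q = (P' : PowerSeries (MK K)) := by
    have h5 : PowerSeries.X * ((l.map (fac K)).prod * Q) =
        PowerSeries.X * (P' : PowerSeries (MK K)) := by
      rw [Polynomial.coe_mul, Polynomial.coe_X] at h2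
      rw [← h2]
      ring
    ext k
    have := congrArg (PowerSeries.coeff (k + 1)) h5
    rwa [PowerSeries.coeff_succ_X_mul, PowerSeries.coeff_succ_X_mul] at this
  have h6 : (l.map (fac K)).prod * Q ∈ ratRing K S := by
    rw [h4]
    exact poly_mem S P'
  clear h h2 h3 h4
  induction l with
  | nil => simpa using h6
  | cons p l ih =>
    rw [List.map_cons, List.prod_cons, mul_assoc] at h6
    exact ih (fun q hq => h1 q (List.mem_cons_of_mem _ hq))
      (cancel_fac (h1 p List.mem_cons_self) (hS p (h1 p List.mem_cons_self)) h6)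

end Pool.Agent.W206.MO
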