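import Pool.Agent.W206.MO.Top

set_option autoImplicit false

/-! The shift `s ↦ s + c` and poles of rational functions. -/

namespace Pool.Agent.W206.MO

open Pool.Agent.W428.MOT Pool.Agent.W375.MT Pool.Agent.W375.MG

/-- The substitution `s ↦ s + c` for polynomials. -/
noncomputable def pshift (c : ℂ) : Polynomial ℂ →+* Polynomial ℂ :=
  Polynomial.compRingHom (Polynomial.X + Polynomial.C c)

theorem pshift_apply (c : ℂ) (p : Polynomial ℂ) :
    pshift c p = p.comp (Polynomial.X + Polynomial.C c) := rfl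

/-- The substitution `s ↦ s + c` for rational functions. -/
noncomputable def shift (c : ℂ) : RatFunc ℂ →+* RatFunc ℂ :=
  RatFunc.mapRingHom (pshift c) (by
    intro p hp
    rw [Submonoid.mem_comap, mem_nonZeroDivisors_iff_ne_zero]
    exact comp_ne_zero (nonZeroDivisors.ne_zero hp) c)

theorem shift_algebraMap (c : ℂ) (p : Polynomial ℂ) :
    shift c (algebraMap (Polynomial ℂ) (RatFunc ℂ) p) =
      algebraMap (Polynomial ℂ) (RatFunc ℂ) (p.comp (Polynomial.X + Polynomial.C c)) := by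
  have h := RatFunc.map_apply_div (φ := pshift c) (by
    intro p hp
    rw [Submonoid.mem_comap, mem_nonZeroDivisors_iff_ne_zero]
    exact comp_ne_zero (nonZeroDivisors.ne_zero hp) c) p 1
  simp only [map_one, div_one] at h
  exact h

theorem shift_shift (c d : ℂ) (R : RatFunc ℂ) : shift c (shift d R) = shift (c + d) R := by
  have h : (shift c).comp (shift d) = shift (c + d) := by
    apply IsFractionRing.ringHom_ext (A := Polynomial ℂ)
    intro p
    rw [RingHom.comp_apply, shift_algebraMap, shift_algebraMap, shift_algebraMap,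
      Polynomial.comp_assoc]
    congr 2
    simp only [Polynomial.add_comp, Polynomial.X_comp, Polynomial.C_comp, map_add]
    ring
  exact congrArg (fun φ => φ R) h

theorem shift_zero (R : RatFunc ℂ) : shift 0 R = R := by
  have h : shift 0 = RingHom.id (RatFunc ℂ) := by
    apply IsFractionRing.ringHom_ext (A := Polynomial ℂ)
    intro p
    rw [shift_algebraMap]
    simp
  rw [h]
  rfl

theorem shift_X (c : ℂ) : shift c RatFunc.X = RatFunc.X + RatFunc.C c := by
  rw [← RatFunc.algebraMap_X, shift_algebraMap, Polynomial.X_comp, map_add, RatFunc.algebraMap_C]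

/-! ### Regularity -/

/-- `R` is regular at `s₀`. -/
def RegAt (R : RatFunc ℂ) (s₀ : ℂ) : Prop :=
  ∃ A B : Polynomial ℂ, B.eval s₀ ≠ 0 ∧ R * algebraMap (Polynomial ℂ) (RatFunc ℂ) B =
    algebraMap (Polynomial ℂ) (RatFunc ℂ) A

theorem regAt_iff (R : RatFunc ℂ) (s₀ : ℂ) : RegAt R s₀ ↔ R.denom.eval s₀ ≠ 0 := by
  constructor
  · rintro ⟨A, B, hB, h⟩ h0
    have hB0 : B ≠ 0 := by
      rintro rfl
      simp at hB
    have hB1 : algebraMap (Polynomial ℂ) (RatFunc ℂ) B ≠ 0 := RatFunc.algebraMap_ne_zero hB0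
    have h1 : R.denom ∣ B := (RatFunc.denom_dvd hB0).2 ⟨A, by rw [eq_div_iff hB1, h]⟩
    obtain ⟨C, hC⟩ := h1
    apply hB
    rw [hC, Polynomial.eval_mul, h0, zero_mul]
  · intro h
    have h1 := RatFunc.num_div_denom R
    have h2 : algebraMap (Polynomial ℂ) (RatFunc ℂ) R.denom ≠ 0 :=
      RatFunc.algebraMap_ne_zero (RatFunc.denom_ne_zero R)
    exact ⟨R.num, R.denom, h, by rw [← h1, RatFunc.num_div_denom, eq_comm, ← div_eq_iff h2, h1]⟩

theorem RegAt.add {R R' : RatFunc ℂ} {s₀ : ℂ} (h : RegAt R s₀) (h' : RegAt R' s₀) :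
    RegAt (R + R') s₀ := by
  obtain ⟨A, B, h1, h2⟩ := h
  obtain ⟨A', B', h1', h2'⟩ := h'
  refine ⟨A * B' + A' * B, B * B', by rw [Polynomial.eval_mul]; exact mul_ne_zero h1 h1', ?_⟩
  rw [map_mul, map_add, map_mul, map_mul, ← h2, ← h2']
  ring

theorem RegAt.mul {R R' : RatFunc ℂ} {s₀ : ℂ} (h : RegAt R s₀) (h' : RegAt R' s₀) :
    RegAt (R * R') s₀ := by
  obtain ⟨A, B, h1, h2⟩ := h
  obtain ⟨A', B', h1', h2'⟩ := h'
  refine ⟨A * A', B * B', by rw [Polynomial.eval_mul]; exact mul_ne_zero h1 h1', ?_⟩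
  rw [map_mul, map_mul, ← h2, ← h2']
  ring

theorem regAt_poly (A : Polynomial ℂ) (s₀ : ℂ) :
    RegAt (algebraMap (Polynomial ℂ) (RatFunc ℂ) A) s₀ :=
  ⟨A, 1, by simp, by simp⟩

theorem RegAt.sub {R R' : RatFunc ℂ} {s₀ : ℂ} (h : RegAt R s₀) (h' : RegAt R' s₀) :
    RegAt (R - R') s₀ := by
  have h1 := h.add ((regAt_poly (-1) s₀).mul h')
  rw [map_neg, map_one] at h1
  have : R - R' = R + -1 * R' := by ring
  rw [this]
  exact h1

theorem RegAt.of_mul_poly {R : RatFunc ℂ} {s₀ : ℂ} {A : Polynomial ℂ} (hA : A.eval s₀ ≠ 0)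
    (h : RegAt (algebraMap (Polynomial ℂ) (RatFunc ℂ) A * R) s₀) : RegAt R s₀ := by
  obtain ⟨C, B, h1, h2⟩ := h
  refine ⟨C, A * B, by rw [Polynomial.eval_mul]; exact mul_ne_zero hA h1, ?_⟩
  rw [map_mul, ← h2]
  ring

theorem RegAt.shift {R : RatFunc ℂ} {s₀ c : ℂ} (h : RegAt R (s₀ + c)) :
    RegAt (shift c R) s₀ := by
  obtain ⟨A, B, h1, h2⟩ := h
  refine ⟨A.comp (Polynomial.X + Polynomial.C c), B.comp (Polynomial.X + Polynomial.C c), ?_, ?_⟩
  · rw [Polynomial.eval_comp]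
    simpa using h1
  · have := congrArg (MO.shift c) h2
    rwa [map_mul, shift_algebraMap, shift_algebraMap] at this

theorem RegAt.of_shift {R : RatFunc ℂ} {s₀ c : ℂ} (h : RegAt (MO.shift c R) s₀) :
    RegAt R (s₀ + c) := by
  have h1 := RegAt.shift (R := MO.shift c R) (s₀ := s₀ + c) (c := -c) (by
    rwa [add_neg_cancel_right])
  rwa [shift_shift, neg_add_cancel, shift_zero] at h1

/-! ### The specialisation of a rescaled series -/

/-- `T ↦ 𝕃 ^ (-m) T` for expressions. -/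
noncomputable def resc (m : ℕ) : Expr →+* Expr :=
  MvPolynomial.eval₂Hom MvPolynomial.C fun o => o.elim
    (MvPolynomial.C ((((Lu ℂ)⁻¹ : (MK ℂ)ˣ) : MK ℂ) ^ m) * MvPolynomial.X none)
    fun p => MvPolynomial.X (some ⟨(p.1.1 - m * p.1.2, p.1.2), p.2⟩)

theorem IsTop.rescale {χ : MK ℂ →+* ℤ} (hχ : χ ((Lu ℂ : (MK ℂ)ˣ) : MK ℂ) = 1) {m : ℕ}
    {Z : PowerSeries (MK ℂ)} {R : RatFunc ℂ} (h : IsTop χ Z R) :
    IsTop χ (PowerSeries.rescale ((((Lu ℂ)⁻¹ : (MK ℂ)ˣ) : MK ℂ) ^ m) Z) (shift m R) := by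
  have hY : χ (((Lu ℂ)⁻¹ : (MK ℂ)ˣ) : MK ℂ) = 1 := by
    have h1 : ((Lu ℂ : (MK ℂ)ˣ) : MK ℂ) * (((Lu ℂ)⁻¹ : (MK ℂ)ˣ) : MK ℂ) = 1 := Units.mul_inv _
    have h2 := congrArg χ h1
    rwa [map_mul, hχ, one_mul, map_one] at h2
  have hevX : ev (MvPolynomial.X none) = PowerSeries.X := by
    rw [ev, MvPolynomial.aeval_X]
    rfl
  have htpX : tp χ (MvPolynomial.X none) = 1 := by
    rw [tp, MvPolynomial.coe_eval₂Hom, MvPolynomial.eval₂_X]
    rfl
  have hevC : ∀ c : MK ℂ, ev (MvPolynomial.C c) = PowerSeries.C c := by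
    intro c
    rw [ev, MvPolynomial.algHom_C, PowerSeries.algebraMap_apply]
    rfl
  have htpC : ∀ c : MK ℂ, tp χ (MvPolynomial.C c) = (χ c : RatFunc ℂ) := by
    intro c
    rw [tp, MvPolynomial.coe_eval₂Hom, MvPolynomial.eval₂_C]
    simp
  have hevy : ∀ p : Pr, ev (MvPolynomial.X (some p)) =
      PowerSeries.C (((Lu ℂ : (MK ℂ)ˣ) : MK ℂ) - 1) * geo ℂ p.1.1 p.1.2 := by
    intro p
    rw [ev, MvPolynomial.aeval_X]
    rfl
  have htpy : ∀ p : Pr, tp χ (MvPolynomial.X (some p)) =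
      ((p.1.2 : RatFunc ℂ) * RatFunc.X - (p.1.1 : RatFunc ℂ))⁻¹ := by
    intro p
    rw [tp, MvPolynomial.coe_eval₂Hom, MvPolynomial.eval₂_X]
    rfl
  have hrC : ∀ c : MK ℂ, resc m (MvPolynomial.C c) = MvPolynomial.C c := by
    intro c
    rw [resc, MvPolynomial.coe_eval₂Hom, MvPolynomial.eval₂_C]
  have hrX : resc m (MvPolynomial.X none) =
      MvPolynomial.C ((((Lu ℂ)⁻¹ : (MK ℂ)ˣ) : MK ℂ) ^ m) * MvPolynomial.X none := by
    rw [resc, MvPolynomial.coe_eval₂Hom, MvPolynomial.eval₂_X]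
    rfl
  have hry : ∀ p : Pr, resc m (MvPolynomial.X (some p)) =
      MvPolynomial.X (some ⟨(p.1.1 - m * p.1.2, p.1.2), p.2⟩) := by
    intro p
    rw [resc, MvPolynomial.coe_eval₂Hom, MvPolynomial.eval₂_X]
    rfl
  have hreC : ∀ c d : MK ℂ, PowerSeries.rescale d (PowerSeries.C c) = PowerSeries.C c := by
    intro c d
    ext k
    rw [PowerSeries.coeff_rescale, PowerSeries.coeff_C]
    split_ifs with h
    · rw [h, pow_zero, one_mul]
    · rw [mul_zero]
  have hmeq : (((Lu ℂ)⁻¹ : (MK ℂ)ˣ) : MK ℂ) ^ m = (((Lu ℂ) ^ (-(m : ℤ)) : (MK ℂ)ˣ) : MK ℂ) := by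
    rw [zpow_neg, zpow_natCast, ← inv_pow, Units.val_pow_eq_pow_val]
  have key1 : ev.toRingHom.comp (resc m) =
      (PowerSeries.rescale ((((Lu ℂ)⁻¹ : (MK ℂ)ˣ) : MK ℂ) ^ m)).comp ev.toRingHom := by
    apply MvPolynomial.ringHom_ext
    · intro c
      change ev (resc m (MvPolynomial.C c)) = PowerSeries.rescale _ (ev (MvPolynomial.C c))
      rw [hrC, hevC, hreC]
    · intro o
      rcases o with _ | p
      · change ev (resc m (MvPolynomial.X none)) =
          PowerSeries.rescale _ (ev (MvPolynomial.X none))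
        rw [hrX, map_mul, hevC, hevX, PowerSeries.rescale_X]
      · change ev (resc m (MvPolynomial.X (some p))) =
          PowerSeries.rescale _ (ev (MvPolynomial.X (some p)))
        rw [hry, hevy, hevy, map_mul, hreC, hmeq, rescale_geo _ _ _ p.2]
        congr 2
        ring
  have key2 : (tp χ).comp (resc m) = (shift m).comp (tp χ) := by
    apply MvPolynomial.ringHom_ext
    · intro c
      change tp χ (resc m (MvPolynomial.C c)) = shift m (tp χ (MvPolynomial.C c))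
      rw [hrC, htpC, map_intCast]
    · intro o
      rcases o with _ | p
      · change tp χ (resc m (MvPolynomial.X none)) = shift m (tp χ (MvPolynomial.X none))
        rw [hrX, map_mul, htpC, htpX, map_one, map_pow, hY]
        simp
      · change tp χ (resc m (MvPolynomial.X (some p))) = shift m (tp χ (MvPolynomial.X (some p)))
        rw [hry, htpy, htpy, map_inv₀, map_sub, map_mul, map_intCast, map_intCast, shift_X]
        congr 1
        push_cast
        have : RatFunc.C (m : ℂ) = (m : RatFunc ℂ) := map_natCast _ _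
        rw [this]
        ring
  obtain ⟨Φ, h1, h2⟩ := h
  refine ⟨resc m Φ, ?_, ?_⟩
  · have := congrArg (fun φ => φ Φ) key1
    change ev (resc m Φ) = PowerSeries.rescale _ (ev Φ) at this
    rw [this, h1]
  · have := congrArg (fun φ => φ Φ) key2
    change tp χ (resc m Φ) = shift m (tp χ Φ) at this
    rw [this, h2]

end Pool.Agent.W206.MO
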