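import Pool.Agent.W206.MO.Jets

set_option autoImplicit false

/-! The jets of `F + y t`. -/

namespace Pool.Agent.W206.MO

open MvPolynomial
open Pool.Agent.W428.MOT Pool.Agent.W375.MT

variable {K : Type} [Field K] {V : Type}

/-- `F + y t` -/
noncomputable def nxt (F : MvPolynomial V K) : MvPolynomial (V ⊕ Fin 2) K :=
  rename Sum.inl F + X (Sum.inr 0) * X (Sum.inr 1)

theorem aeval_nxt (F : MvPolynomial V K) (γ : V ⊕ Fin 2 → PowerSeries (AlgebraicClosure K)) :
    aeval γ (nxt F) = aeval (fun i => γ (Sum.inl i)) F + γ (Sum.inr 0) * γ (Sum.inr 1) := by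
  rw [nxt, map_add, aeval_rename, map_mul, aeval_X, aeval_X]
  rfl

/-- The jets with `ord y = i`. -/
def Qs (V : Type) (i N : ℕ) : Set (Pt K ((V ⊕ Fin 2) × Fin N)) :=
  {z | (∀ j < i, PowerSeries.coeff j (ar z (Sum.inr 0)) = 0) ∧
    PowerSeries.coeff i (ar z (Sum.inr 0)) ≠ 0}

/-- The jets with `y = 0`. -/
def Ys (V : Type) (N : ℕ) : Set (Pt K ((V ⊕ Fin 2) × Fin N)) :=
  {z | ∀ j < N, PowerSeries.coeff j (ar z (Sum.inr 0)) = 0}

theorem constr_Qs (i N : ℕ) : Constr (Qs (K := K) V i N) :=
  Constr.and (Constr.allLt _ fun j _ => Constr.eqz (isPA_ar _ j)) (Constr.eqz (isPA_ar _ i)).not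

theorem constr_Ys (N : ℕ) : Constr (Ys (K := K) V N) :=
  Constr.allLt _ fun j _ => Constr.eqz (isPA_ar _ j)

section

variable [DecidableEq V]

theorem ar_update_of_ne {N : ℕ} (z : Pt K (V × Fin N)) (p : V × Fin N) (w : AlgebraicClosure K)
    (i : V) (h : i ≠ p.1) : ar (Function.update z p w) i = ar z i := by
  ext j
  simp only [ar, PowerSeries.coeff_mk]
  split_ifs with hj
  · rw [Function.update_of_ne]
    rintro rfl
    exact h rfl
  · rfl

theorem ar_update_self {N : ℕ} (z : Pt K (V × Fin N)) (i : V) (k : Fin N)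
    (w : AlgebraicClosure K) : ar (Function.update z (i, k) w) i =
      ar z i + PowerSeries.X ^ (k : ℕ) * PowerSeries.C (w - z (i, k)) := by
  ext j
  rw [map_add, PowerSeries.coeff_X_pow_mul']
  by_cases hj : j < N
  · rw [coeff_ar _ _ _ hj, coeff_ar _ _ _ hj]
    by_cases hk : j = k
    · subst hk
      simp
    · rw [Function.update_of_ne]
      · split_ifs with h
        · rw [PowerSeries.coeff_C, if_neg (by omega), add_zero]
        · rw [add_zero]
      · intro he
        apply hk
        have := congrArg (fun p => (p.2 : ℕ)) he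
        exact this
  · rw [coeff_ar' _ _ _ hj, coeff_ar' _ _ _ hj, if_pos (by have := k.2; omega),
      PowerSeries.coeff_C, if_neg (by have := k.2; omega), add_zero]

/-- Changing the coefficient `t_{N - i}`. -/
theorem coeff_update (F : MvPolynomial V K) {N i : ℕ} (hi : i ≤ N)
    (z : Pt K ((V ⊕ Fin 2) × Fin (N + 1)))
    (hz : ∀ j < i, PowerSeries.coeff j (ar z (Sum.inr 0)) = 0) (w : AlgebraicClosure K)
    (j : ℕ) (hj : j ≤ N) :
    PowerSeries.coeff j (aeval (ar (Function.update z
      (Sum.inr 1, (⟨N - i, by omega⟩ : Fin (N + 1))) w)) (nxt F)) =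
    PowerSeries.coeff j (aeval (ar z) (nxt F)) + if j = N then
      PowerSeries.coeff i (ar z (Sum.inr 0)) * (w - z (Sum.inr 1, ⟨N - i, by omega⟩)) else 0 := by
  rw [aeval_nxt, aeval_nxt, ar_update_self]
  have h1 : (fun i' : V => ar (Function.update z
      (Sum.inr 1, (⟨N - i, by omega⟩ : Fin (N + 1))) w) (Sum.inl i')) =
      fun i' => ar z (Sum.inl i') := by
    funext i'
    exact ar_update_of_ne _ _ _ _ (by simp)
  rw [h1, ar_update_of_ne z _ w (Sum.inr 0) (by simp), mul_add]
  rw [map_add, map_add, map_add, add_assoc]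
  congr 2
  rw [mul_left_comm, PowerSeries.coeff_X_pow_mul', PowerSeries.coeff_mul_C]
  simp only
  split_ifs with h2 h3 h3
  · have : j - (N - i) = i := by omega
    rw [this]
  · rw [hz _ (by omega), zero_mul]
  · omega
  · rfl

end

variable [Fintype V] {R : Type} [CommRing R] (M : Meas K R)

theorem chi_stratum (F : MvPolynomial V K) (N i : ℕ) (hi : i ≤ N) :
    M.χ _ (Qs V i (N + 1) ∩ van (nxt F) N (N + 1)) =
      M.χ _ (Qs V i (N + 1) ∩ van (nxt F) (N + 1) (N + 1)) * M.L := by
  classical
  let p : (V ⊕ Fin 2) × Fin (N + 1) := (Sum.inr 1, (⟨N - i, by omega⟩ : Fin (N + 1)))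
  have hQ : ∀ (z : Pt K ((V ⊕ Fin 2) × Fin (N + 1))) (w : AlgebraicClosure K),
      ar (Function.update z p w) (Sum.inr 0) = ar z (Sum.inr 0) := fun z w =>
    ar_update_of_ne z p w (Sum.inr 0) (by simp [p])
  have hmem : ∀ (z : Pt K ((V ⊕ Fin 2) × Fin (N + 1))) (w : AlgebraicClosure K),
      Function.update z p w ∈ Qs V i (N + 1) ∩ van (nxt F) N (N + 1) ↔
        z ∈ Qs V i (N + 1) ∩ van (nxt F) N (N + 1) := by
    intro z w
    have h1 : Function.update z p w ∈ Qs V i (N + 1) ↔ z ∈ Qs V i (N + 1) := by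
      simp only [Qs, Set.mem_ofPred_eq, hQ]
    rw [Set.mem_inter_iff, Set.mem_inter_iff, h1]
    refine and_congr_right fun hz => ?_
    simp only [van, Set.mem_ofPred_eq]
    refine forall_congr' fun j => forall_congr' fun hj => ?_
    rw [coeff_update F hi z hz.1 w j (by omega), if_neg (by omega), add_zero]
  have e1 := free_coords M (Qs V i (N + 1) ∩ van (nxt F) N (N + 1)) {p}
    ((constr_Qs _ _).inter (constr_van _ _ _)) (by
      intro z w hzw hz
      have : w = Function.update z p (w p) := by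
        funext q
        by_cases hq : q = p
        · subst hq
          simp
        · rw [Function.update_of_ne hq]
          exact hzw q (by simpa using hq)
      rw [this, hmem]
      exact hz)
  rw [Finset.card_singleton, pow_one] at e1
  rw [e1]
  congr 1
  symm
  refine Pool.Agent.W21.MTSub.main M _ _ p (fun z => PowerSeries.coeff i (ar z (Sum.inr 0)))
    (fun z => PowerSeries.coeff N (aeval (ar (Function.update z p 0)) (nxt F)))
    ((constr_Qs _ _).inter (constr_van _ _ _))
    (((constr_Qs _ _).inter (constr_van _ _ _)).inter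
      (Constr.ballFinset _ fun q _ => Constr.eqz (IsPF.coord _))) (isPA_ar _ _) ?_ ?_ ?_ ?_ ?_ ?_
  · refine (isPA_aeval (fun i z => ar z i) (fun i => isPA_ar i) (nxt F) N).comp
      (fun z => Function.update z p 0) (fun q => ?_)
    by_cases hq : q = p
    · subst hq
      simp only [Function.update_self]
      exact IsPF.zero
    · simp only [Function.update_of_ne hq]
      exact IsPF.coord _
  · intro z w
    simp only [hQ]
  · intro z w
    simp only [Function.update_idem]
  · intro z hz
    exact hz.1.2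
  · intro z hz
    exact hz.1.1.2
  · intro z hz
    have h1 : ∀ w : AlgebraicClosure K, Function.update z p w ∈
        (Qs V i (N + 1) ∩ van (nxt F) N (N + 1)) ∩ {z | ∀ q ∈ ({p} : Finset _), z q = 0} ↔
        z ∈ Qs V i (N + 1) ∩ van (nxt F) N (N + 1) ∧ w = 0 := by
      intro w
      rw [Set.mem_inter_iff, hmem]
      simp
    rw [h1]
    constructor
    · rintro ⟨h2, h3⟩
      refine ⟨⟨h2, fun j hj => h3 j (by omega)⟩, ?_⟩
      rw [coeff_update F hi z h2.1 0 N le_rfl, if_pos rfl, h3 N (by omega)]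
      ring
    · rintro ⟨⟨h2, h3⟩, h4⟩
      refine ⟨h2, fun j hj => ?_⟩
      by_cases hjN : j = N
      · subst hjN
        rw [coeff_update F hi z h2.1 0 j le_rfl, if_pos rfl] at h4
        linear_combination h4
      · exact h3 j (by omega)

theorem chi_zero (F : MvPolynomial V K) (k N : ℕ) (hk : k ≤ N) :
    M.χ _ (Ys V N ∩ van (nxt F) k N) = M.χ _ (van F k N) * M.L ^ N := by
  classical
  have hcond : ∀ z ∈ Ys (K := K) V N, ∀ j < k, PowerSeries.coeff j (aeval (ar z) (nxt F)) =
      PowerSeries.coeff j (aeval (ar (fun p : V × Fin N => z (Sum.inl p.1, p.2))) F) := by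
    intro z hz j hj
    rw [aeval_nxt, map_add]
    have h1 : PowerSeries.coeff j (ar z (Sum.inr 0) * ar z (Sum.inr 1)) = 0 := by
      rw [PowerSeries.coeff_mul]
      refine Finset.sum_eq_zero fun ab hab => ?_
      have := Finset.HasAntidiagonal.mem_antidiagonal.1 hab
      rw [hz ab.1 (by omega), zero_mul]
    rw [h1, add_zero]
    rfl
  let F1 : Finset ((V ⊕ Fin 2) × Fin N) := Finset.univ.filter fun p => p.1 = Sum.inr 1
  have hcard : F1.card = N := by
    have : F1 = ({Sum.inr 1} : Finset (V ⊕ Fin 2)) ×ˢ (Finset.univ : Finset (Fin N)) := by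
      ext p
      simp only [F1, Finset.mem_filter, Finset.mem_univ, and_true, true_and, Finset.mem_product,
        Finset.mem_singleton]
    rw [this, Finset.card_product, Finset.card_singleton, one_mul, Finset.card_univ,
      Fintype.card_fin]
  have hC : Constr (Ys V N ∩ van (nxt F) k N) := (constr_Ys _).inter (constr_van _ _ _)
  have hY : ∀ z : Pt K ((V ⊕ Fin 2) × Fin N), z ∈ Ys V N ↔ ∀ j : Fin N, z (Sum.inr 0, j) = 0 := by
    intro z
    constructor
    · intro h j
      have := h j j.2
      rwa [coeff_ar _ _ _ j.2] at this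
    · intro h j hj
      rw [coeff_ar _ _ _ hj]
      exact h _
  have hmem : ∀ z : Pt K ((V ⊕ Fin 2) × Fin N), z ∈ Ys V N ∩ van (nxt F) k N ↔
      (∀ j : Fin N, z (Sum.inr 0, j) = 0) ∧
        (fun p : V × Fin N => z (Sum.inl p.1, p.2)) ∈ van F k N := by
    intro z
    rw [Set.mem_inter_iff, hY]
    refine and_congr_right fun hz => ?_
    simp only [van, Set.mem_ofPred_eq]
    refine forall_congr' fun j => forall_congr' fun hj => ?_
    rw [hcond z ((hY z).2 hz) j hj]
  have h1 := free_coords M (Ys V N ∩ van (nxt F) k N) F1 hC (by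
    intro z w hzw hz
    rw [hmem] at hz ⊢
    obtain ⟨hz, hz'⟩ := hz
    refine ⟨fun j => ?_, ?_⟩
    · rw [hzw _ (by simp [F1])]
      exact hz j
    · have : (fun p : V × Fin N => w (Sum.inl p.1, p.2)) =
          fun p : V × Fin N => z (Sum.inl p.1, p.2) := by
        funext p
        exact hzw _ (by simp [F1])
      rw [this]
      exact hz')
  rw [h1, hcard]
  congr 1
  refine M.iso _ _ (hC.inter (Constr.ballFinset _ fun p _ => Constr.eqz (IsPF.coord _)))
    (constr_van _ _ _) (fun z p => z (Sum.inl p.1, p.2))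
    (fun z p => Sum.elim (fun i => z (i, p.2)) (fun _ => 0) p.1)
    (regularOn_poly (fun p => IsPF.coord _) _) (regularOn_poly ?_ _) ?_ ?_ ?_ ?_
  · rintro ⟨i | i, j⟩
    · exact IsPF.coord _
    · exact IsPF.zero
  · rintro z ⟨hz, -⟩
    exact ((hmem z).1 hz).2
  · intro z hz
    refine ⟨(hmem _).2 ⟨fun j => rfl, hz⟩, fun p hp => ?_⟩
    simp only [F1, Finset.mem_filter, Finset.mem_univ, true_and] at hp
    change Sum.elim (fun i => z (i, p.2)) (fun _ => (0 : AlgebraicClosure K)) p.1 = 0
    rw [hp]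
    rfl
  · rintro z ⟨hz, hz'⟩
    have h2 := ((hmem z).1 hz).1
    funext p
    obtain ⟨i | i, j⟩ := p
    · rfl
    · fin_cases i
      · exact (h2 j).symm
      · exact (hz' _ (by simp [F1])).symm
  · intro z _
    rfl

/-- The partition by the order of `y`. -/
theorem chi_partition {N : ℕ} (S : Set (Pt K ((V ⊕ Fin 2) × Fin N))) (hS : Constr S) :
    M.χ _ S = M.χ _ (Ys V N ∩ S) + ∑ i ∈ Finset.range N, M.χ _ (Qs V i N ∩ S) := by
  classical
  have hC : ∀ i ∈ Finset.range N, Constr (Qs V i N ∩ S) := fun i _ => (constr_Qs i N).inter hS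
  rw [← chi_biUnion M (Finset.range N) (fun i => Qs V i N ∩ S) hC, ← M.add]
  · congr 1
    ext z
    simp only [Set.mem_union, Set.mem_inter_iff, Set.mem_iUnion, Finset.mem_range, exists_prop]
    constructor
    · intro hz
      by_cases h : z ∈ Ys V N
      · exact Or.inl ⟨h, hz⟩
      · right
        have hex : ∃ j, j < N ∧ PowerSeries.coeff j (ar z (Sum.inr 0)) ≠ 0 := by
          by_contra hcon
          push Not at hcon
          exact h hcon
        refine ⟨Nat.find hex, (Nat.find_spec hex).1, ⟨fun j hj => ?_, (Nat.find_spec hex).2⟩, hz⟩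
        have := Nat.find_min hex hj
        push Not at this
        exact this (lt_trans hj (Nat.find_spec hex).1)
    · rintro (h | ⟨i, -, h⟩)
      · exact h.2
      · exact h.2
  · exact (constr_Ys N).inter hS
  · exact constr_biUnion _ _ hC
  · rw [Set.disjoint_left]
    rintro z ⟨h1, -⟩ h2
    simp only [Set.mem_iUnion, Finset.mem_range, exists_prop] at h2
    obtain ⟨i, hi, h3, -⟩ := h2
    exact h3.2 (h1 i hi)
  · intro i _ j _ hij
    rw [Set.disjoint_left]
    rintro z ⟨h1, -⟩ ⟨h2, -⟩
    rcases lt_trichotomy i j with h | h | h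
    · exact h1.2 (h2.1 i h)
    · exact hij h
    · exact h2.2 (h1.1 j h)

/-- The step. -/
theorem cl_step (F : MvPolynomial V K) (N : ℕ) :
    cl M (nxt F) N * M.L ^ (Fintype.card V + 2) -
        cl M F N * M.L ^ Fintype.card V * M.L ^ (N + 1) =
      (cl M (nxt F) (N + 1) - cl M F (N + 1) * M.L ^ (N + 1)) * M.L := by
  classical
  have h1 := chi_partition M (van (nxt F) N (N + 1)) (constr_van _ _ _)
  have h2 := chi_partition M (van (nxt F) (N + 1) (N + 1)) (constr_van _ _ _)
  rw [chi_zero M F N (N + 1) (by omega), chi_level M F N, chi_level M (nxt F) N] at h1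
  rw [chi_zero M F (N + 1) (N + 1) le_rfl] at h2
  have h3 : ∑ i ∈ Finset.range (N + 1), M.χ _ (Qs V i (N + 1) ∩ van (nxt F) N (N + 1)) =
      (∑ i ∈ Finset.range (N + 1), M.χ _ (Qs V i (N + 1) ∩ van (nxt F) (N + 1) (N + 1))) *
        M.L := by
    rw [Finset.sum_mul]
    refine Finset.sum_congr rfl fun i hi => ?_
    exact chi_stratum M F N i (by have := Finset.mem_range.1 hi; omega)
  rw [h3] at h1
  have hc : Fintype.card (V ⊕ Fin 2) = Fintype.card V + 2 := by simp
  rw [hc] at h1
  unfold cl
  unfold cl at h1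
  linear_combination h1 - M.L * h2

end Pool.Agent.W206.MO
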