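import Pool.Agent.W206.MO.Lin
import Pool.Agent.W206.MO.Main

set_option autoImplicit false

/-! The topological zeta function as a specialisation of the motivic one. -/

namespace Pool.Agent.W206.MO

open Pool.Agent.W428.MOT Pool.Agent.W375.MT Pool.Agent.W375.MG

/-- The pairs `(a, b)` of integers with `b > 0`. -/
abbrev Pr : Type := {p : ℤ × ℤ // 0 < p.2}

/-- The formal expressions: polynomials over `𝓜_ℂ` in the variable `T` (`none`) and the variables
`y_{a,b}` (`some (a, b)`, `b > 0`). -/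
abbrev Expr : Type := MvPolynomial (Option Pr) (MK ℂ)

/-- The power series given by an expression: `y_{a,b} ↦ (𝕃 - 1) / (1 - 𝕃 ^ a T ^ b)`. -/
noncomputable def ev : Expr →ₐ[MK ℂ] PowerSeries (MK ℂ) :=
  MvPolynomial.aeval fun o => o.elim PowerSeries.X
    fun p => PowerSeries.C (((Lu ℂ : (MK ℂ)ˣ) : MK ℂ) - 1) * geo ℂ p.1.1 p.1.2

/-- The specialisation of an expression: `χ` on the coefficients, `T ↦ 1` and
`y_{a,b} ↦ 1 / (b s - a)`. -/
noncomputable def tp (χ : MK ℂ →+* ℤ) : Expr →+* RatFunc ℂ :=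
  MvPolynomial.eval₂Hom ((Int.castRingHom (RatFunc ℂ)).comp χ) fun o => o.elim 1
    fun p => ((p.1.2 : RatFunc ℂ) * RatFunc.X - (p.1.1 : RatFunc ℂ))⁻¹

/-- The rational function `R(s)` is the specialisation of the power series `Z(T)`. -/
def IsTop (χ : MK ℂ →+* ℤ) (Z : PowerSeries (MK ℂ)) (R : RatFunc ℂ) : Prop :=
  ∃ Φ : Expr, ev Φ = Z ∧ tp χ Φ = R

/-- `χ` is the topological Euler characteristic: it is multiplicative in maps all of whose fibres
have the same finite number of points, and `χ(𝔸¹) = 1`. -/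
structure IsEuler (χ : MK ℂ →+* ℤ) : Prop where
  line : χ ((Lu ℂ : (MK ℂ)ˣ) : MK ℂ) = 1
  cover : ∀ (V W : Var ℂ) (f : Pt ℂ (Fin V.n) → Pt ℂ (Fin W.n)) (d : ℕ), RegularOn V.S f →
    Set.MapsTo f V.S W.S → (∀ y ∈ W.S, {x | x ∈ V.S ∧ f x = y}.encard = d) →
    χ (algebraMap (K0 ℂ) (MK ℂ) (K0.mk V)) = d * χ (algebraMap (K0 ℂ) (MK ℂ) (K0.mk W))

section

variable {χ : MK ℂ →+* ℤ}

theorem IsTop.add {Z Z' : PowerSeries (MK ℂ)} {R R' : RatFunc ℂ} (h : IsTop χ Z R)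
    (h' : IsTop χ Z' R') : IsTop χ (Z + Z') (R + R') := by
  obtain ⟨Φ, h1, h2⟩ := h
  obtain ⟨Φ', h1', h2'⟩ := h'
  exact ⟨Φ + Φ', by rw [map_add, h1, h1'], by rw [map_add, h2, h2']⟩

theorem IsTop.sub {Z Z' : PowerSeries (MK ℂ)} {R R' : RatFunc ℂ} (h : IsTop χ Z R)
    (h' : IsTop χ Z' R') : IsTop χ (Z - Z') (R - R') := by
  obtain ⟨Φ, h1, h2⟩ := h
  obtain ⟨Φ', h1', h2'⟩ := h'
  exact ⟨Φ - Φ', by rw [map_sub, h1, h1'], by rw [map_sub, h2, h2']⟩

theorem IsTop.mul {Z Z' : PowerSeries (MK ℂ)} {R R' : RatFunc ℂ} (h : IsTop χ Z R)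
    (h' : IsTop χ Z' R') : IsTop χ (Z * Z') (R * R') := by
  obtain ⟨Φ, h1, h2⟩ := h
  obtain ⟨Φ', h1', h2'⟩ := h'
  exact ⟨Φ * Φ', by rw [map_mul, h1, h1'], by rw [map_mul, h2, h2']⟩

theorem isTop_C (c : MK ℂ) : IsTop χ (PowerSeries.C c) (χ c : RatFunc ℂ) := by
  refine ⟨MvPolynomial.C c, ?_, ?_⟩
  · rw [ev, MvPolynomial.algHom_C, PowerSeries.algebraMap_apply]
    rfl
  · rw [tp, MvPolynomial.coe_eval₂Hom, MvPolynomial.eval₂_C]
    simp

theorem isTop_one : IsTop χ 1 1 := ⟨1, by simp, by simp⟩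

theorem isTop_X : IsTop χ PowerSeries.X 1 := by
  refine ⟨MvPolynomial.X none, ?_, ?_⟩
  · rw [ev, MvPolynomial.aeval_X]
    rfl
  · rw [tp, MvPolynomial.coe_eval₂Hom, MvPolynomial.eval₂_X]
    rfl

theorem isTop_geo (a b : ℤ) (hb : 0 < b) :
    IsTop χ (PowerSeries.C (((Lu ℂ : (MK ℂ)ˣ) : MK ℂ) - 1) * geo ℂ a b)
      (((b : RatFunc ℂ) * RatFunc.X - (a : RatFunc ℂ))⁻¹) := by
  refine ⟨MvPolynomial.X (some ⟨(a, b), hb⟩), ?_, ?_⟩
  · rw [ev, MvPolynomial.aeval_X]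
    rfl
  · rw [tp, MvPolynomial.coe_eval₂Hom, MvPolynomial.eval₂_X]
    rfl

/-! ### Division by `T` -/

theorem exists_div (hχ : χ ((Lu ℂ : (MK ℂ)ˣ) : MK ℂ) = 1) (Φ : Expr) :
    ∃ (c : MK ℂ) (Φ' : Expr), ev Φ = PowerSeries.C c + PowerSeries.X * ev Φ' ∧
      tp χ Φ = (χ c : RatFunc ℂ) + tp χ Φ' := by
  have hL : ∀ a : ℤ, χ (((Lu ℂ) ^ a : (MK ℂ)ˣ) : MK ℂ) = 1 := by
    intro a
    have h1 : Units.map (χ : MK ℂ →* ℤ) (Lu ℂ) = 1 := by
      ext
      exact hχ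
    have h2 : Units.map (χ : MK ℂ →* ℤ) ((Lu ℂ) ^ a) = 1 := by rw [map_zpow, h1, one_zpow]
    have h3 := congrArg (Units.val) h2
    exact h3
  induction Φ using MvPolynomial.induction_on with
  | C c =>
    refine ⟨c, 0, ?_, ?_⟩
    · rw [map_zero, mul_zero, add_zero, ev, MvPolynomial.algHom_C, PowerSeries.algebraMap_apply]
      rfl
    · rw [map_zero, add_zero, tp, MvPolynomial.coe_eval₂Hom, MvPolynomial.eval₂_C]
      simp
  | add p q hp hq =>
    obtain ⟨c, Φ, h1, h2⟩ := hp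
    obtain ⟨c', Φ', h1', h2'⟩ := hq
    refine ⟨c + c', Φ + Φ', ?_, ?_⟩
    · rw [map_add, map_add, map_add, h1, h1']
      ring
    · rw [map_add, map_add, map_add, h2, h2']
      push_cast
      ring
  | mul_X p o hp =>
    obtain ⟨c, Φ, h1, h2⟩ := hp
    rcases o with _ | ⟨⟨a, b⟩, hb⟩
    · refine ⟨0, p, ?_, ?_⟩
      · rw [map_mul]
        have : ev (MvPolynomial.X none) = PowerSeries.X := by
          rw [ev, MvPolynomial.aeval_X]
          rfl
        rw [this, map_zero, zero_add, mul_comm]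
      · rw [map_mul]
        have : tp χ (MvPolynomial.X none) = 1 := by
          rw [tp, MvPolynomial.coe_eval₂Hom, MvPolynomial.eval₂_X]
          rfl
        rw [this, mul_one, map_zero]
        simp
    · have hb' : 0 < b := hb
      obtain ⟨b', hb2⟩ : ∃ b' : ℕ, b.toNat = b' + 1 := ⟨b.toNat - 1, by omega⟩
      set y : Expr := MvPolynomial.X (some ⟨(a, b), hb⟩) with hy
      set y' : Expr := MvPolynomial.C (((Lu ℂ) ^ a : (MK ℂ)ˣ) : MK ℂ) *
        MvPolynomial.X none ^ b' * y with hy'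
      have hevX : ev (MvPolynomial.X none) = PowerSeries.X := by
        rw [ev, MvPolynomial.aeval_X]
        rfl
      have htpX : tp χ (MvPolynomial.X none) = 1 := by
        rw [tp, MvPolynomial.coe_eval₂Hom, MvPolynomial.eval₂_X]
        rfl
      have hevC : ∀ c : MK ℂ, ev (MvPolynomial.C c) = PowerSeries.C c := by
        intro c
        rw [ev, MvPolynomial.algHom_C, PowerSeries.algebraMap_apply]
        rfl
      have htpC : ∀ c : MK ℂ, tp χ (MvPolynomial.C c) = (χ c : RatFunc ℂ) := by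
        intro c
        rw [tp, MvPolynomial.coe_eval₂Hom, MvPolynomial.eval₂_C]
        simp
      have hevy : ev y = PowerSeries.C (((Lu ℂ : (MK ℂ)ˣ) : MK ℂ) - 1) * geo ℂ a b := by
        rw [hy, ev, MvPolynomial.aeval_X]
        rfl
      have h3 : ev y = PowerSeries.C (((Lu ℂ : (MK ℂ)ˣ) : MK ℂ) - 1) +
          PowerSeries.X * ev y' := by
        have h4 := Pool.Agent.W63.MTFin.geo_mul (K := ℂ) a b hb'
        rw [hy', map_mul, map_mul, map_pow, hevX, hevC, hevy]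
        rw [hb2] at h4
        linear_combination (PowerSeries.C (((Lu ℂ : (MK ℂ)ˣ) : MK ℂ) - 1)) * h4
      have h4 : tp χ y' = tp χ y := by
        rw [hy', map_mul, map_mul, map_pow, htpX, htpC, hL, one_pow]
        simp
      refine ⟨c * (((Lu ℂ : (MK ℂ)ˣ) : MK ℂ) - 1), Φ * y + MvPolynomial.C c * y', ?_, ?_⟩
      · rw [map_mul ev p y, map_add ev, map_mul ev Φ y, map_mul ev (MvPolynomial.C c) y', hevC,
          map_mul, h1]
        linear_combination (PowerSeries.C c) * h3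
      · rw [map_mul (tp χ) p y, map_add (tp χ), map_mul (tp χ) Φ y,
          map_mul (tp χ) (MvPolynomial.C c) y', htpC, h2, map_mul χ, map_sub χ, map_one, hχ, h4]
        push_cast
        ring

theorem IsTop.of_X_mul (hχ : χ ((Lu ℂ : (MK ℂ)ˣ) : MK ℂ) = 1) {Z : PowerSeries (MK ℂ)}
    {R : RatFunc ℂ} (h : IsTop χ (PowerSeries.X * Z) R) : IsTop χ Z R := by
  obtain ⟨Φ, h1, h2⟩ := h
  obtain ⟨c, Φ', h3, h4⟩ := exists_div hχ Φ
  have hc : c = 0 := by
    have := congrArg (PowerSeries.coeff 0) (h1.symm.trans h3)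
    simpa using this.symm
  subst hc
  refine ⟨Φ', ?_, ?_⟩
  · rw [h1, map_zero, zero_add] at h3
    exact (X_cancel h3).symm
  · rw [← h2, h4]
    simp

end

end Pool.Agent.W206.MO
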